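import Pool.Agent.LibAC34.Defs
import Pool.Agent.LibGG.Stmt

/-!
Cycles of all dimensions on products of elliptic curves and divisors on their images: definitions.
-/

open WeierstrassCurve Pool.Agent.LibBH2 Pool.Agent.LibIG50 Pool.Agent.LibCHd Pool.Agent.LibGG
  Pool.Agent.LibAC34
open scoped Classical

namespace Pool.Agent.LibAF11

variable {k : Type} [Field k]

/-- maps `V(F) → W(F)` for all fields `F` over `k` -/
abbrev Maps (V W : WeierstrassCurve k) : Type 1 :=
  ∀ (F : Type) [Field F] [Algebra k F], (V⁄F).toAffine.Point → (W⁄F).toAffine.Point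

/-- the maps are homomorphisms of groups -/
def IsAdd {V W : WeierstrassCurve k} (f : Maps V W) : Prop :=
  ∀ (F : Type) [Field F] [Algebra k F] (P Q : (V⁄F).toAffine.Point), f F (P + Q) = f F P + f F Q

/-- the maps are compatible with the embeddings of fields over `k` -/
def IsNat {V W : WeierstrassCurve k} (f : Maps V W) : Prop :=
  ∀ (F G : Type) [Field F] [Algebra k F] [Field G] [Algebra k G] (σ : F →ₐ[k] G)
    (P : (V⁄F).toAffine.Point), f G (mp σ P) = mp σ (f F P)

/-- the maps are compatible with the specialisation of points at places -/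
def IsSpe {V W : WeierstrassCurve k} (f : Maps V W) : Prop :=
  ∀ (K : Type) [Field K] [Algebra k K] (v : Place k K) (P : (V⁄K).toAffine.Point)
    (p : (V⁄(RF v)).toAffine.Point), SpR v P p → SpR v (f K P) (f (RF v) p)

/-- A homomorphism from the elliptic curve `V` to the elliptic curve `W` over `k`: homomorphisms
`V(F) → W(F)` of the groups of points for all fields `F` over `k`, compatible with the embeddings of
fields over `k` and with the specialisation of points at places. -/
structure Hom (V W : WeierstrassCurve k) where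
  /-- the maps on points -/
  f : Maps V W
  add : IsAdd f
  nat : IsNat f
  spe : IsSpe f

/-- the homomorphisms from `V 1 × ... × V D` to `W 1 × ... × W r`: matrices of homomorphisms from
`V a` to `W i` -/
abbrev Homs {D r : ℕ} (V : Fin D → WeierstrassCurve k) (W : Fin r → WeierstrassCurve k) :
    Type 1 :=
  ∀ i a, Hom (V a) (W i)

/-- the projective space of dimension zero, a point -/
def pt0 (k : Type) [Field k] : Prj k := ⟨0, ∅, by simp⟩

/-- the origin of `W 1 × ... × W r` -/
noncomputable def org {r : ℕ} (W : Fin r → WeierstrassCurve k) : Pnt W (pt0 k) k where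
  z _ := 0
  y _ := 1
  y_ne h := one_ne_zero (congrFun h 0)
  mem _ h := h.elim

/-- the class of the point `a` of `A = W 1 × ... × W r` in the Chow group `CH_0 (A)` -/
noncomputable def ptC {r : ℕ} {W : Fin r → WeierstrassCurve k} (a : Pts W) : CH W (pt0 k) 0 :=
  QuotientAddGroup.mk (cyc (trl a (org W)))

/-- the class of `(P, Q) - (P, 0) - (0, Q) + (0, 0)` for the point `a = (P, Q)` of a product of two
curves -/
noncomputable def sq {W : Fin 2 → WeierstrassCurve k} (a : Pts W) : CH W (pt0 k) 0 :=
  ptC a - ptC (Function.update a 1 0) - ptC (Function.update a 0 0) + ptC 0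

/-- The groups `Γ E` are orthogonal to each other and to themselves: for all elliptic curves `E` and
`E'` and all `P` in `Γ E` and `Q` in `Γ E'` the zero-cycle `(P, Q) - (P, 0) - (0, Q) + (0, 0)` is
torsion in the Chow group `CH_0 (E × E')`. (`W = (E, E')` and `a = (P, Q)`.) -/
def PwC (Γ : Grid) : Prop :=
  ∀ W : Fin 2 → WeierstrassCurve Qb, (∀ i, (W i).IsElliptic) → ∀ a : Pts W,
    (∀ i, a i ∈ Γ (W i)) → IsOfFinAddOrder (sq a)

section cycles

variable {L K : Type} [Field L] [Algebra k L] [Field K] [Algebra k K] {D r : ℕ}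
  {V : Fin D → WeierstrassCurve k} {W : Fin r → WeierstrassCurve k} {Y : Prj k}

/-- the point `N ξ + g + u` of `W 1 × ... × W r × Y` -/
noncomputable def pntH (l : L →ₐ[k] K) (ξ : ∀ a, ((V a)⁄K).toAffine.Point) (u : Pnt W Y L)
    (N : Homs V W) (g : Pts W) : Pnt W Y K :=
  trl g (Pnt.add (fun i => ∑ a, (N i a).f K (ξ a)) (u.map l))

/-- the class of the cycle `c * Z` in `CH_n (A × Y)`, where `c = ∑ j, m j • (N j_* B + g j)`, `Z` is
the cycle of the point `u` and `ξ` is the generic point of `B` -/
noncomputable def clsH (l : L →ₐ[k] K) (n : ℕ) (ξ : ∀ a, ((V a)⁄K).toAffine.Point)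
    (u : Pnt W Y L) {J : Type} [Fintype J] (m : J → ℤ) (N : J → Homs V W) (g : J → Pts W) :
    CH W Y n :=
  ∑ j, m j • QuotientAddGroup.mk (cyc (pntH l ξ u (N j) (g j)))

/-- the image of a point under a homomorphism `f` from `W 1 × ... × W r` to `W' 1 × ... × W' s` -/
noncomputable def imgH {s : ℕ} {W' : Fin s → WeierstrassCurve k} (f : Homs W W')
    (u : Pnt W Y K) : Pnt W' Y K where
  z i := ∑ j, (f i j).f K (u.z j)
  y := u.y
  y_ne := u.y_ne
  mem := u.mem

/-- the class of the cycle `f_* c` in `CH_n (A')`, where `c = ∑ j, m j • (N j_* B + g j)`, a cycle on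
`A`, `ξ` is the generic point of `B` and `f` is a homomorphism from `A` to `A'` -/
noncomputable def dirH {s : ℕ} {W' : Fin s → WeierstrassCurve k} (f : Homs W W') (n : ℕ)
    (ξ : ∀ a, ((V a)⁄K).toAffine.Point) {J : Type} [Fintype J] (m : J → ℤ)
    (N : J → Homs V W) (g : J → Pts W) : CH W' (pt0 k) n :=
  ∑ j, m j • QuotientAddGroup.mk
    (cyc (imgH f (pntH (Algebra.ofId k K) ξ (org W) (N j) (g j))))

/-- for all homomorphisms `f` from `A` to products `A'` of `D + 1` elliptic curves the divisor `f_* c`
is torsion in the Chow group `CH_D (A') = Pic (A')` -/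
def Tors1 (ξ : ∀ a, ((V a)⁄K).toAffine.Point) {J : Type} [Fintype J] (m : J → ℤ)
    (N : J → Homs V W) (g : J → Pts W) : Prop :=
  ∀ W' : Fin (D + 1) → WeierstrassCurve k, (∀ i, (W' i).IsElliptic) → ∀ f : Homs W W',
    IsOfFinAddOrder (dirH f D ξ m N g)

/-- for all projective `Y` and all prime cycles `Z` on `A × Y`, of dimension `e` (`Z` is the cycle of
the point `u` with coordinates in `L`, `η` is the generic point of `B` and `M` the function field of
`B × Z`), the cycle `c * Z` is torsion in the Chow group `CH_{e + D} (A × Y)` -/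
def Tors3 {J : Type} [Fintype J] (m : J → ℤ) (N : J → Homs V W) (g : J → Pts W) : Prop :=
  ∀ (Y : Prj k) (e : ℕ) (L : Type) [Field L] [Algebra k L] (u : Pnt W Y L)
    (M : Type) [Field M] [Algebra k M] (l : L →ₐ[k] M) (η : ∀ a, ((V a)⁄M).toAffine.Point),
    IsGen e l V η → IsOfFinAddOrder (clsH l (e + D) η u m N g)

end cycles

/-- Let `A = W 1 × ... × W r` and `B = V 1 × ... × V D` be products of elliptic curves over `Qb`, and
`ξ` the generic point of `B`. For finitely many homomorphisms `N j : B → A`, points `g j` of `A` with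
components in the groups `Γ` and integers `m j` let `c = ∑ j, m j • (N j_* B + g j)`, a cycle of
dimension `D` on `A`. The following are equivalent:
* for all homomorphisms `f` from `A` to products `A'` of `D + 1` elliptic curves the divisor `f_* c`
  is torsion in the Chow group `CH_D (A') = Pic (A')`;
* `c` is torsion in the Chow group `CH_D (A)`;
* for all projective `Y` and all prime cycles `Z` on `A × Y` the cycle `c * Z` is torsion in the Chow
  group `CH_{D + dim Z} (A × Y)`. -/
def ByDivs (Γ : Grid) : Prop :=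
  ∀ (r : ℕ) (W : Fin r → WeierstrassCurve Qb), (∀ i, (W i).IsElliptic) →
    ∀ (D : ℕ) (V : Fin D → WeierstrassCurve Qb), (∀ a, (V a).IsElliptic) →
    ∀ (F : Type) [Field F] [Algebra Qb F] (ξ : ∀ a, ((V a)⁄F).toAffine.Point),
    IsGen 0 (Algebra.ofId Qb F) V ξ →
    ∀ (J : Type) [Fintype J] (m : J → ℤ) (N : J → Homs V W) (g : J → Pts W),
      (∀ j i, g j i ∈ Γ (W i)) →
      List.TFAE [Tors1 ξ m N g,
        IsOfFinAddOrder (clsH (Algebra.ofId Qb F) D ξ (org W) m N g), Tors3 m N g]

end Pool.Agent.LibAF11
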