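import Pool.Agent.LibAC34.HDefs
import Pool.Agent.LibGG.Stmt
import Pool.Agent.LibAF11.Defs

/-!
Cycles of all dimensions on products of elliptic curves and divisors on their images: the statement.
-/

open WeierstrassCurve Pool.Agent.LibBH2 Pool.Agent.LibIG50 Pool.Agent.LibCHd Pool.Agent.LibGG
  Pool.Agent.LibAC34
open scoped Classical

namespace Pool.Agent.LibAF11

variable {k : Type} [Field k]

/-- the homomorphisms from `B = V 1 × ... × V D` to `A = W 1 × ... × W r`: matrices of homomorphisms
from `V a` to `W i` -/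
abbrev Mor {D r : ℕ} (V : Fin D → WeierstrassCurve k) (W : Fin r → WeierstrassCurve k) : Type 1 :=
  ∀ i a, Hm (V a) (W i)

/-- the point `N ξ + g + u` of `A × Y`, for a homomorphism `N` from `B` to `A` -/
noncomputable def pnt {L K : Type} [Field L] [Algebra k L] [Field K] [Algebra k K]
    (l : L →ₐ[k] K) {D r : ℕ} {V : Fin D → WeierstrassCurve k} {W : Fin r → WeierstrassCurve k}
    {Y : Prj k} (ξ : ∀ a, ((V a)⁄K).toAffine.Point) (N : Mor V W) (g : Pts W)
    (u : Pnt W Y L) : Pnt W Y K :=
  trl g (Pnt.add (fun i => ∑ a, (N i a).f K (ξ a)) (u.map l))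

/-- the class of the cycle of the point `N ξ + g + u` -/
noncomputable def cls {L K : Type} [Field L] [Algebra k L] [Field K] [Algebra k K]
    (l : L →ₐ[k] K) (m : ℕ) {D r : ℕ} {V : Fin D → WeierstrassCurve k}
    {W : Fin r → WeierstrassCurve k} {Y : Prj k} (ξ : ∀ a, ((V a)⁄K).toAffine.Point)
    (u : Pnt W Y L) (N : Mor V W) (g : Pts W) : CH W Y m :=
  QuotientAddGroup.mk (cyc (pnt l ξ N g u))

/-- the image of a point of `A` under a homomorphism `f` from `A` to `A' = W' 1 × ... × W' s` -/
noncomputable def img {r s : ℕ} {W : Fin r → WeierstrassCurve k} {W' : Fin s → WeierstrassCurve k}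
    (f : Mor W W') {Y : Prj k} {K : Type} [Field K] [Algebra k K] (u : Pnt W Y K) : Pnt W' Y K where
  z i := ∑ j, (f i j).f K (u.z j)
  y := u.y
  y_ne := u.y_ne
  mem := u.mem

/-- Let `A = W 1 × ... × W r` and `B = V 1 × ... × V D` be products of elliptic curves over `Qb`, and
`ξ` the generic point of `B`. For finitely many homomorphisms `N j : B → A`, points `g j` of `A` with
components in the groups `Γ` and integers `m j` let `c = ∑ j, m j • (N j_* B + g j)`, a cycle of
dimension `D` on `A`. The following are equivalent: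
* for all homomorphisms `f` from `A` to products `A'` of `D + 1` elliptic curves the divisor `f_* c`
  is torsion in the Chow group `CH_D (A') = Pic (A')`;
* `c` is torsion in the Chow group `CH_D (A)`;
* for all projective `Y` and all prime cycles `Z` on `A × Y`, of dimension `e` (`Z` is the cycle of the
  point `u` with coordinates in `L`, `η` is the generic point of `B` and `K` the function field of
  `B × Z`), the cycle `c * Z` is torsion in the Chow group `CH_{e + D} (A × Y)`. -/
def ByDivisors (Γ : Grid) : Prop :=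
  ∀ (r : ℕ) (W : Fin r → WeierstrassCurve Qb), (∀ i, (W i).IsElliptic) →
    ∀ (D : ℕ) (V : Fin D → WeierstrassCurve Qb), (∀ a, (V a).IsElliptic) →
    ∀ (F : Type) [Field F] [Algebra Qb F] (ξ : ∀ a, ((V a)⁄F).toAffine.Point),
    IsGen 0 (Algebra.ofId Qb F) V ξ →
    ∀ (J : Type) [Fintype J] (m : J → ℤ) (N : J → Mor V W) (g : J → Pts W),
      (∀ j i, g j i ∈ Γ (W i)) →
      List.TFAE [
        ∀ W' : Fin (D + 1) → WeierstrassCurve Qb, (∀ i, (W' i).IsElliptic) → ∀ f : Mor W W',
          IsOfFinAddOrder (∑ j, m j • (QuotientAddGroup.mk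
            (cyc (img f (pnt (Algebra.ofId Qb F) ξ (N j) (g j) (org W)))) : CH W' (pt0 Qb) D)),
        IsOfFinAddOrder (∑ j, m j • cls (Algebra.ofId Qb F) D ξ (org W) (N j) (g j)),
        ∀ (Y : Prj Qb) (e : ℕ) (L : Type) [Field L] [Algebra Qb L] (u : Pnt W Y L)
          (K : Type) [Field K] [Algebra Qb K] (l : L →ₐ[Qb] K)
          (η : ∀ a, ((V a)⁄K).toAffine.Point), IsGen e l V η →
          IsOfFinAddOrder (∑ j, m j • cls l (e + D) η u (N j) (g j))]

end Pool.Agent.LibAF11
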