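import Pool.Agent.LibAF11.Stmt

/-!
The two forms of the statement.
-/

open WeierstrassCurve Pool.Agent.LibBH2 Pool.Agent.LibIG50 Pool.Agent.LibCHd Pool.Agent.LibGG
  Pool.Agent.LibAC34
open scoped Classical

namespace Pool.Agent.LibAF11

variable {k : Type} [Field k]

/-- from `Hom` to `Hm` -/
noncomputable def Hom.toHm {V W : WeierstrassCurve k} (φ : Hom V W) : Hm V W where
  f F := AddMonoidHom.mk' (φ.f F) (φ.add F)
  nat := φ.nat
  sp := φ.spe

/-- from `Hm` to `Hom` -/
noncomputable def ofHm {V W : WeierstrassCurve k} (φ : Hm V W) : Hom V W where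
  f F := φ.f F
  add F _ _ P Q := map_add (φ.f F) P Q
  nat := φ.nat
  spe := φ.sp

theorem byDivs_of {Γ : Grid} (h : ByDivisors Γ) : ByDivs Γ := by
  intro r W hW D V hV F _ _ ξ hξ J _ m N g hg
  have h1 := h r W hW D V hV F ξ hξ J m (fun j i a => (N j i a).toHm) g hg
  have e1 : Tors1 ξ m N g ↔ ∀ W' : Fin (D + 1) → WeierstrassCurve Qb, (∀ i, (W' i).IsElliptic) →
      ∀ f : Mor W W', IsOfFinAddOrder (∑ j, m j • (QuotientAddGroup.mk
        (cyc (img f (pnt (Algebra.ofId Qb F) ξ (fun i a => (N j i a).toHm) (g j) (org W)))) :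
          CH W' (pt0 Qb) D)) := by
    constructor
    · intro h2 W' hW' f
      exact h2 W' hW' (fun i j => ofHm (f i j))
    · intro h2 W' hW' f
      exact h2 W' hW' (fun i j => (f i j).toHm)
  have e2 : Tors3 m N g ↔ ∀ (Y : Prj Qb) (e : ℕ) (L : Type) [Field L] [Algebra Qb L]
      (u : Pnt W Y L) (K : Type) [Field K] [Algebra Qb K] (l : L →ₐ[Qb] K)
      (η : ∀ a, ((V a)⁄K).toAffine.Point), IsGen e l V η → IsOfFinAddOrder
        (∑ j, m j • cls l (e + D) η u (fun i a => (N j i a).toHm) (g j)) := by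
    constructor
    · intro h2 Y e L _ _ u K _ _ l η hη
      exact h2 Y e L u K l η hη
    · intro h2 Y e L _ _ u K _ _ l η hη
      exact h2 Y e L u K l η hη
  rw [e1, e2]
  exact h1

end Pool.Agent.LibAF11
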