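import Pool.Agent.LibAC34.StmtC
import Pool.Agent.LibAC84C.Conv
import Pool.Agent.LibAF11.Stmt

/-!
Interface: the converse, in the form with complex multiplications.
-/

open WeierstrassCurve Pool.Agent.LibBH2 Pool.Agent.LibIG50 Pool.Agent.LibCHd Pool.Agent.LibGG
  Pool.Agent.LibAC34
open scoped Classical ComplexConjugate

namespace Pool.Agent.LibAF11

/-- **The converse.** If the cycle `∑ j, m j • (N j_* B + g j)` on the product `W` is torsion then the
numbers of `AllDimC` are zero. -/
theorem convC (c : CM) {r : ℕ} (W : Fin r → WeierstrassCurve Qb) (hW : ∀ i, (W i).IsElliptic)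
    {D : ℕ} (V : Fin D → WeierstrassCurve Qb) (hV : ∀ a, (V a).IsElliptic)
    (F : Type) [Field F] [Algebra Qb F] (ξ : ∀ a, ((V a)⁄F).toAffine.Point)
    (hξ : IsGen 0 (Algebra.ofId Qb F) V ξ) (J : Type) [Fintype J] (m : J → ℤ)
    (N : J → Matrix (Fin r) (Fin D) (ℤ × ℤ)) (g : J → Pts W) (hN : ∀ j, MatC c V W (N j))
    (htor : IsOfFinAddOrder (∑ j, m j • clC c.w (Algebra.ofId Qb F) D (fun i => Hm.id (W i)) ξ
      (org W) (N j) (g j))) :
    (∀ M, MatC c V W M →
      ∑ j, m j * Complex.normSq ((cx c W M).transpose * cx c W (N j)).det = 0) ∧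
    ∀ M, MatC c V W M → ∀ (E : WeierstrassCurve Qb) (s : Fin r → ℤ),
      (∀ i, W i ≠ E → s i = 0) → ∀ lam : E.toAffine.Point →+ ℂ,
      (∀ P, lam ((c.w E).k0 P) = c.ω E * lam P) →
      ∑ j, m j * (conj ((cx c W M).transpose * cx c W (N j)).det *
        ((Matrix.fromCols (cx c W M) (Matrix.replicateCol Unit fun i => (s i : ℂ))).transpose *
          Matrix.fromCols (cx c W (N j))
            (Matrix.replicateCol Unit fun i => lam (trk (W i) E (g j i)))).det) = 0 :=
  LibAC84C.convC c hW hV hξ J m N g hN htor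

end Pool.Agent.LibAF11
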