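import Pool.Agent.LibAF11.PwIff
import Pool.Agent.LibGG.Main

/-!
Existence of the groups.
-/

open WeierstrassCurve Pool.Agent.LibBH2 Pool.Agent.LibIG50 Pool.Agent.LibCHd Pool.Agent.LibGG
  Pool.Agent.LibAC34
open scoped Classical

namespace Pool.Agent.LibAF11

theorem exist (K : Type) [Field K] [NumberField K] [Algebra K Qb] (E₀ : WeierstrassCurve K)
    [E₀.IsElliptic] (T P : E₀.toAffine.Point) (hT : T ≠ 0) (hT' : 2 • T = 0) :
    ∃ Γ : Grid, PwC Γ ∧ constPt Qb P ∈ Γ (E₀⁄Qb) ∧ InfRank Γ ∧ Stable K Γ := by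
  obtain ⟨t, ht, hst, hP⟩ := exists_t K E₀ T P hT hT'
  refine ⟨Gam t, pwC_of_pw fun E E' hE hE' P hP Q hQ => Gam_zc hP hQ, hP,
    fun W hW => ⟨Gam_rank W t ht, fun R n hn hR => ?_⟩, fun E hE =>
    ⟨fun σ R hR => Gam_gal t hst E σ hR, fun n => ?_⟩⟩
  · obtain ⟨m, hm, h⟩ := hR
    refine ⟨m * n, Nat.mul_pos hm (Nat.pos_of_ne_zero hn), ?_⟩
    rw [mul_smul]
    exact h
  · have : (E⁄Qb).IsElliptic := inferInstanceAs (E.map (algebraMap K Qb)).IsElliptic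
    exact Gam_degree K (E⁄Qb) t ht n

end Pool.Agent.LibAF11
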