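import Pool.Agent.LibAF11.Main
import Pool.Agent.LibAF11.Bridge
import Pool.Agent.LibAF11.Exist

/-!
The final theorem.
-/

open WeierstrassCurve Pool.Agent.LibBH2 Pool.Agent.LibIG50 Pool.Agent.LibCHd Pool.Agent.LibGG
  Pool.Agent.LibAC34
open scoped Classical

namespace Pool.Agent.LibAF11

/-- **The theorem.** -/
theorem all_codim :
    (∀ Γ : Grid, PwC Γ → ByDivs Γ) ∧
    ∀ (K : Type) [Field K] [NumberField K] [Algebra K Qb] (E₀ : WeierstrassCurve K)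
      [E₀.IsElliptic] (T P : E₀.toAffine.Point), T ≠ 0 → 2 • T = 0 →
      ∃ Γ : Grid, PwC Γ ∧ constPt Qb P ∈ Γ (E₀⁄Qb) ∧ InfRank Γ ∧ Stable K Γ :=
  ⟨fun _ h => byDivs_of (byDivisors (pw_of_pwC h)),
    fun K _ _ _ E₀ _ T P hT hT' => exist K E₀ T P hT hT'⟩

/-- **The theorem**, existence first. -/
theorem all_codim' :
    (∀ (K : Type) [Field K] [NumberField K] [Algebra K Qb] (E₀ : WeierstrassCurve K)
      [E₀.IsElliptic] (T P : E₀.toAffine.Point), T ≠ 0 → 2 • T = 0 →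
      ∃ Γ : Grid, PwC Γ ∧ ByDivs Γ ∧ constPt Qb P ∈ Γ (E₀⁄Qb) ∧ InfRank Γ ∧ Stable K Γ) ∧
    ∀ Γ : Grid, PwC Γ → ByDivs Γ :=
  ⟨fun K _ _ _ E₀ _ T P hT hT' => by
    obtain ⟨Γ, h1, h2⟩ := exist K E₀ T P hT hT'
    exact ⟨Γ, h1, all_codim.1 Γ h1, h2⟩, all_codim.1⟩

end Pool.Agent.LibAF11
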