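import Pool.Agent.LibAC34.StmtC
import Pool.Agent.LibAC34.CG
import Pool.Agent.LibIG50.Main

/-!
Enlargement of orthogonal groups: images under homomorphisms and saturation.
-/

open WeierstrassCurve Pool.Agent.LibBH2 Pool.Agent.LibIG50 Pool.Agent.LibCHd Pool.Agent.LibGG
  Pool.Agent.LibAC34
open scoped Classical

namespace Pool.Agent.LibAF11

/-- images of the points of the groups under homomorphisms -/
def gensH (Γ : Grid) (E : WeierstrassCurve Qb) : Set E.toAffine.Point :=
  {R | ∃ (E' : WeierstrassCurve Qb) (_ : E'.IsElliptic) (φ : Hm E' E) (P : E'.toAffine.Point),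
    P ∈ Γ E' ∧ R = φ.k0 P}

/-- the enlarged groups -/
noncomputable def satH (Γ : Grid) : Grid := fun E => sat (AddSubgroup.closure (gensH Γ E))

theorem k0_id {E : WeierstrassCurve Qb} (P : E.toAffine.Point) : (Hm.id E).k0 P = P := by
  have h := (Hm.id E).const Qb P
  have h2 : (constPt Qb P : (E⁄Qb).toAffine.Point) = constPt Qb ((Hm.id E).k0 P) := h
  match P, (Hm.id E).k0 P, h2 with
  | .zero, .zero, _ => rfl
  | .zero, .some x y h, h' => exact absurd h' (by intro h''; cases h'')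
  | .some x y h, .zero, h' => exact absurd h' (by intro h''; cases h'')
  | .some x y h, .some x' y' h', h'' =>
    injection h'' with e1 e2
    have e1' : x = x' := (algebraMap Qb Qb).injective e1
    have e2' : y = y' := (algebraMap Qb Qb).injective e2
    subst e1' e2'
    rfl

theorem constPt_inj' {E : WeierstrassCurve Qb} {F : Type} [Field F] [Algebra Qb F]
    {p q : E.toAffine.Point} (h : (constPt F p : (E⁄F).toAffine.Point) = constPt F q) : p = q := by
  match p, q, h with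
  | .zero, .zero, _ => rfl
  | .zero, .some x y h, h' => exact absurd h' (by intro h''; cases h'')
  | .some x y h, .zero, h' => exact absurd h' (by intro h''; cases h'')
  | .some x y h, .some x' y' h', h'' =>
    injection h'' with e1 e2
    have e1' : x = x' := (algebraMap Qb F).injective e1
    have e2' : y = y' := (algebraMap Qb F).injective e2
    subst e1' e2'
    rfl

theorem k0_comp {U V W : WeierstrassCurve Qb} (ψ : Hm V W) (φ : Hm U V) (P : U.toAffine.Point) :
    (ψ.comp φ).k0 P = ψ.k0 (φ.k0 P) := by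
  apply constPt_inj' (F := Qb)
  rw [← (ψ.comp φ).const, ← ψ.const, ← φ.const]
  rfl

theorem le_satH (Γ : Grid) (E : WeierstrassCurve Qb) (hE : E.IsElliptic) : Γ E ≤ satH Γ E := by
  intro P hP
  exact ⟨1, one_pos, by
    rw [one_smul]
    exact AddSubgroup.subset_closure ⟨E, hE, Hm.id E, P, hP, (k0_id P).symm⟩⟩

theorem satH_sat (Γ : Grid) (E : WeierstrassCurve Qb) (P : E.toAffine.Point) (n : ℕ) (hn : n ≠ 0)
    (h : n • P ∈ satH Γ E) : P ∈ satH Γ E := by
  obtain ⟨m, hm, h'⟩ := h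
  refine ⟨m * n, Nat.mul_pos hm (Nat.pos_of_ne_zero hn), ?_⟩
  rw [mul_smul]
  exact h'

theorem satH_fun (Γ : Grid) : Fun (satH Γ) := by
  intro E E' φ P hP
  obtain ⟨n, hn, h⟩ := hP
  refine ⟨n, hn, ?_⟩
  have h1 : n • φ.k0 P = φ.k0H (n • P) := by rw [map_nsmul]; rfl
  rw [h1]
  have h2 : AddSubgroup.closure (gensH Γ E) ≤
      (AddSubgroup.closure (gensH Γ E')).comap φ.k0H := by
    rw [AddSubgroup.closure_le]
    rintro R ⟨E₁, hE₁, φ₁, P₁, hP₁, rfl⟩
    exact AddSubgroup.subset_closure ⟨E₁, hE₁, φ.comp φ₁, P₁, hP₁, (k0_comp φ φ₁ P₁).symm⟩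
  exact h2 h

theorem satH_pw {Γ : Grid} (h : Pw Γ) : Pw (satH Γ) := by
  intro E E' hE hE' P hP Q hQ
  obtain ⟨n, hn, hP⟩ := hP
  obtain ⟨m, hm, hQ⟩ := hQ
  have h1 : ∀ S ∈ gensH Γ E', ∀ R ∈ AddSubgroup.closure (gensH Γ E),
      IsOfFinAddOrder (zc R S : CH0 E E') := by
    intro S hS R hR
    have h2 : AddSubgroup.closure (gensH Γ E) ≤
        (AddCommGroup.torsion (CH0 E E')).comap ((zHom E E').flip S) := by
      rw [AddSubgroup.closure_le]
      intro R hR
      obtain ⟨E₁, hE₁, φ₁, P₁, hP₁, rfl⟩ := hR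
      obtain ⟨E₂, hE₂, φ₂, P₂, hP₂, rfl⟩ := hS
      exact zc_map φ₁.algMap φ₂.algMap (h E₁ E₂ hE₁ hE₂ P₁ hP₁ P₂ hP₂)
    exact h2 hR
  have h3 : ∀ R ∈ AddSubgroup.closure (gensH Γ E), ∀ S ∈ AddSubgroup.closure (gensH Γ E'),
      IsOfFinAddOrder (zc R S : CH0 E E') := by
    intro R hR S hS
    have h2 : AddSubgroup.closure (gensH Γ E') ≤
        (AddCommGroup.torsion (CH0 E E')).comap (zHom E E' R) := by
      rw [AddSubgroup.closure_le]
      intro S hS
      exact h1 S hS R hR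
    exact h2 hS
  have h4 := h3 _ hP _ hQ
  rw [zc_nsmul_left, zc_nsmul_right] at h4
  rw [isOfFinAddOrder_iff_nsmul_eq_zero] at h4 ⊢
  obtain ⟨l, hl, h5⟩ := h4
  refine ⟨l * (n * m), Nat.mul_pos hl (Nat.mul_pos hn hm), ?_⟩
  rw [mul_smul, mul_smul]
  exact h5

end Pool.Agent.LibAF11
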