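import Pool.Agent.LibAF11.ConvIf
import Pool.Agent.LibAC34.CFin
import Pool.Agent.LibAF11.Sat
import Pool.Agent.LibAC36.Dual
import Pool.Agent.LibAC84E.End
import Pool.Agent.LibAF34.Par
import Pool.Agent.LibAF34.Pf
import Pool.Agent.LibAF34.Sub

/-!
Interfaces (stubs).
-/

open WeierstrassCurve Pool.Agent.LibBH2 Pool.Agent.LibIG50 Pool.Agent.LibCHd Pool.Agent.LibGG
  Pool.Agent.LibAC34
open scoped Classical ComplexConjugate

namespace Pool.Agent.LibAF11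

section
variable {k : Type} [Field k] [CharZero k] [IsAlgClosed k] {V W : WeierstrassCurve k}
  [V.IsElliptic] [W.IsElliptic]

/-- helper36 -/
theorem zero_or (φ : Hm V W) :
    (∀ (F : Type) [Field F] [Algebra k F] (P : (V⁄F).toAffine.Point), φ.f F P = 0) ∨
      ∃ p : V.toAffine.Point, φ.k0 p ≠ 0 :=
  LibAC36.zero_or φ

/-- helper36 -/
theorem surj (φ : Hm V W) (h : ∃ p : V.toAffine.Point, φ.k0 p ≠ 0) (F : Type) [Field F]
    [Algebra k F] [IsAlgClosed F] : Function.Surjective (φ.f F) :=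
  LibAC36.surj h F

/-- helper36 -/
theorem exists_dual (φ : Hm V W) (h : ∃ p : V.toAffine.Point, φ.k0 p ≠ 0) :
    ∃ (n : ℕ) (ψ : Hm W V), 0 < n ∧
      (∀ (F : Type) [Field F] [Algebra k F] (P : (V⁄F).toAffine.Point),
        ψ.f F (φ.f F P) = n • P) ∧
      ∀ (F : Type) [Field F] [Algebra k F] (P : (W⁄F).toAffine.Point),
        φ.f F (ψ.f F P) = n • P :=
  LibAC36.exists_dual₀ h

/-- helper84 -/
theorem exists_cm (E : WeierstrassCurve k) [E.IsElliptic] :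
    ∃ (w : Hm E E) (t n : ℤ) (ω : ℂ), Quad w t n ∧ ω + conj ω = t ∧ ω * conj ω = n ∧
      (ω.im = 0 → (∀ (F : Type) [Field F] [Algebra k F] (P : (E⁄F).toAffine.Point),
        w.f F P = 0) ∧ ω = 0 ∧ t = 0 ∧ n = 0) ∧
      ∀ f : Hm E E, ∃ (Q : ℕ) (x y : ℤ), 0 < Q ∧
        ∀ (F : Type) [Field F] [Algebra k F] (P : (E⁄F).toAffine.Point),
          Q • f.f F P = x • P + y • w.f F P :=
  LibAC84E.exists_cm E
end

variable {k : Type} [Field k] [CharZero k] [IsAlgClosed k] {D : ℕ}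
  {V : Fin D → WeierstrassCurve k} {L K : Type} [Field L] [Algebra k L] [Field K] [Algebra k K]
  {l : L →ₐ[k] K} {ξ : ∀ a, ((V a)⁄K).toAffine.Point}

/-- helper34 -/
theorem gen_sub {e : ℕ} (h : IsGen e l V ξ) (hV : ∀ a, (V a).IsElliptic)
    (V' : Fin D → WeierstrassCurve k) (hV' : ∀ a, (V' a).IsElliptic)
    (ψ : ∀ a, Hm (V a) (V' a)) (hψ : ∀ a, ∃ p : (V a).toAffine.Point, (ψ a).k0 p ≠ 0) :
    ∃ (K' : IntermediateField k K) (l' : L →ₐ[k] K') (ξ' : ∀ a, ((V' a)⁄K').toAffine.Point)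
      (δ : ℕ), (∀ x, K'.val (l' x) = l x) ∧ (∀ a, mp K'.val (ξ' a) = (ψ a).f K (ξ a)) ∧
      IsGen e l' V' ξ' ∧ 0 < δ ∧
      ∀ (r : ℕ) (W : Fin r → WeierstrassCurve k) (Y : Prj k) (N : Mor V' W) (g : Pts W)
        (u : Pnt W Y L), cyc (pnt l ξ (fun i a => (N i a).comp (ψ a)) g u) =
          δ • cyc (pnt l' ξ' N g u) :=
  LibAF34.gen_sub h hV V' hV' ψ hψ

/-- helper34 -/
theorem cls_smul {e : ℕ} (h : IsGen e l V ξ) (hV : ∀ a, (V a).IsElliptic) {r : ℕ}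
    {W : Fin r → WeierstrassCurve k} (hW : ∀ i, (W i).IsElliptic) {Y : Prj k} (n : ℤ)
    (N N' : Mor V W)
    (hN : ∀ i a (F : Type) [Field F] [Algebra k F] (P : ((V a)⁄F).toAffine.Point),
      (N' i a).f F P = n • (N i a).f F P) (g : Pts W) (u : Pnt W Y L) :
    IsOfFinAddOrder (cls l (e + D) ξ u N' g - n ^ (2 * D) • cls l (e + D) ξ u N g) :=
  LibAF34.cls_smul h hV hW n N N' hN g u

/-- helper34 -/
theorem exists_pf {r s : ℕ} {W : Fin r → WeierstrassCurve k} {W' : Fin s → WeierstrassCurve k}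
    (hW : ∀ i, (W i).IsElliptic) (hW' : ∀ i, (W' i).IsElliptic) (f : Mor W W') (Y : Prj k)
    (d : ℕ) : ∃ p : CH W Y d →+ CH W' Y d, ∀ (M : Type) [Field M] [Algebra k M]
      (u : Pnt W Y M), FunF k d M →
      p (QuotientAddGroup.mk (cyc u)) = QuotientAddGroup.mk (cyc (img f u)) :=
  LibAF34.exists_pf hW hW' f Y d

end Pool.Agent.LibAF11
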