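import Pool.Agent.LibAF11.Red7

/-!
The theorem.
-/

open WeierstrassCurve Pool.Agent.LibBH2 Pool.Agent.LibIG50 Pool.Agent.LibCHd Pool.Agent.LibGG
  Pool.Agent.LibAC34
open scoped Classical ComplexConjugate

namespace Pool.Agent.LibAF11

/-- **The theorem.** -/
theorem byDivisors {Γ : Grid} (hΓ : Pw Γ) : ByDivisors Γ := by
  intro r W hW D V hV F _ _ ξ hξ J _ m N g hg
  tfae_have 1 → 3 := by
    intro ha Y e L _ _ u K _ _ l η hη
    obtain ⟨c, hc⟩ := exists_CM
    obtain ⟨d⟩ := exists_dat (c := c) hc hV hW N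
    have h1 : ∀ j i, ∃ p, (d.φ i).k0 p = g j i := by
      intro j i
      have := hW i
      have := base_elliptic (W i) (hW i)
      exact k0_surj (d.φ i) (k0_ne_of (d.φ i) (d.ψ i) d.hq (d.ψφ i)) (g j i)
    choose g' hg' using h1
    obtain ⟨hom, AJ⟩ := numbers d hV (fun a => base_elliptic _ _) (fun i => base_elliptic _ _)
      m g g' hg' ξ hξ ha
    exact up hΓ hV (fun a => base_elliptic _ _) (fun i => base_elliptic _ _) hW d m g g' hg hg'
      hom AJ Y e L u K l η hη
  tfae_have 3 → 2 := by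
    intro h
    have h1 := h (pt0 Qb) 0 Qb (org W) F (Algebra.ofId Qb F) ξ hξ
    unfold cls at h1 ⊢
    rwa [cast_tors m _ (zero_add D)] at h1
  tfae_have 2 → 1 := by
    intro h W' hW' f
    obtain ⟨p, hp⟩ := exists_pf hW hW' f (pt0 Qb) D
    have h1 : ∀ j, p (cls (Algebra.ofId Qb F) D ξ (org W) (N j) (g j)) =
        QuotientAddGroup.mk (cyc (img f (pnt (Algebra.ofId Qb F) ξ (N j) (g j) (org W)))) :=
      fun j => hp F _ (by simpa using hξ.dim)
    have h2 := AddMonoidHom.isOfFinAddOrder p h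
    rw [map_sum] at h2
    simp only [map_zsmul, h1] at h2
    exact h2
  tfae_finish

end Pool.Agent.LibAF11
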