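import Pool.Agent.LibAC34.Stmt3
import Pool.Agent.LibCHd.Key
import Pool.Agent.LibIG50.TJ

/-!
Pairwise orthogonality is enough.
-/

open WeierstrassCurve Pool.Agent.LibBH2 Pool.Agent.LibIG50 Pool.Agent.LibCHd Pool.Agent.LibGG
  Pool.Agent.LibAC34
open scoped Classical

namespace Pool.Agent.LibAF11

theorem pw_orth {Γ : Grid} (h : Pw Γ) : Orth Γ := by
  intro r W hW Y d M _ _ hM u c hc h0 hs
  have : ∀ i, (W i).IsElliptic := hW
  exact act_torsion hW hM u c (cls_torsion W (fun i => Γ (W i))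
    (fun i j _ P hP Q hQ => h (W i) (W j) (hW i) (hW j) P hP Q hQ) c hc h0 hs)

end Pool.Agent.LibAF11
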