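import Pool.Agent.LibAF11.Orth
import Pool.Agent.LibAF11.Stmt
import Pool.Agent.LibAC6.Pw
import Pool.Agent.LibAC34.C1

/-!
The two forms of pairwise orthogonality.
-/

open WeierstrassCurve Pool.Agent.LibBH2 Pool.Agent.LibIG50 Pool.Agent.LibCHd Pool.Agent.LibGG
  Pool.Agent.LibAC34
open scoped Classical

namespace Pool.Agent.LibAF11

theorem ptC_eq {k : Type} [Field k] {r : ℕ} {W : Fin r → WeierstrassCurve k} (a : Pts W) :
    ptC a = LibAC6.ptC a := by
  have h : trl a (org W) = LibAC6.ptc a := by
    apply pnt_ext
    · funext i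
      exact add_zero (constPt k (a i))
    · rfl
  unfold ptC
  rw [h]
  rfl

theorem pw_of_pwC {Γ : Grid} (h : PwC Γ) : Pw Γ := by
  apply LibAC6.pw_of_CH
  intro W hW a ha
  have h1 := h W hW a ha
  unfold sq at h1
  rw [ptC_eq, ptC_eq, ptC_eq, ptC_eq] at h1
  exact h1

theorem pwC_of_pw {Γ : Grid} (h : Pw Γ) : PwC Γ := by
  intro W hW a ha
  set c : Pts W →₀ ℤ := Finsupp.single a 1 - Finsupp.single (Function.update a 1 0) 1 -
    Finsupp.single (Function.update a 0 0) 1 + Finsupp.single 0 1 with hc
  have key : ∀ {G : Type} [AddCommGroup G] (F : Pts W → G), (c.sum fun a n => n • F a) =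
      F a - F (Function.update a 1 0) - F (Function.update a 0 0) + F 0 := by
    intro G _ F
    have e1 : ∀ x y : Pts W →₀ ℤ, ((x + y).sum fun a n => n • F a) =
        (x.sum fun a n => n • F a) + y.sum fun a n => n • F a := fun x y =>
      Finsupp.sum_add_index' (fun _ => zero_smul _ _) fun _ _ _ => add_smul _ _ _
    have e2 : ∀ x y : Pts W →₀ ℤ, ((x - y).sum fun a n => n • F a) =
        (x.sum fun a n => n • F a) - y.sum fun a n => n • F a := fun x y =>
      Finsupp.sum_sub_index fun _ _ _ => sub_smul _ _ _
    have e3 : ∀ b : Pts W, ((Finsupp.single b 1 : Pts W →₀ ℤ).sum fun a n => n • F a) = F b :=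
      fun b => by
        rw [Finsupp.sum_single_index (h := fun a n => n • F a) (zero_smul _ _), one_smul]
    rw [hc, e1, e2, e2, e3, e3, e3, e3]
  have hsupp : ∀ b ∈ c.support, ∀ i, b i ∈ Γ (W i) := by
    intro b hb i
    have h1 : b = a ∨ b = Function.update a 1 0 ∨ b = Function.update a 0 0 ∨ b = 0 := by
      by_contra hcon
      push Not at hcon
      obtain ⟨h1, h2, h3, h4⟩ := hcon
      apply Finsupp.mem_support_iff.1 hb
      rw [hc, Finsupp.add_apply, Finsupp.sub_apply, Finsupp.sub_apply,
        Finsupp.single_eq_of_ne h1, Finsupp.single_eq_of_ne h2, Finsupp.single_eq_of_ne h3,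
        Finsupp.single_eq_of_ne h4]
      rfl
    have hup : ∀ j : Fin 2, Function.update a j 0 i ∈ Γ (W i) := by
      intro j
      by_cases hij : i = j
      · subst hij
        rw [Function.update_self]
        exact zero_mem _
      · rw [Function.update_of_ne hij]
        exact ha i
    rcases h1 with rfl | rfl | rfl | rfl
    · exact ha i
    · exact hup 1
    · exact hup 0
    · exact zero_mem _
  have hdeg : (c.sum fun _ n => n) = 0 := by
    have h1 := key (G := ℤ) (fun _ => 1)
    simp only [smul_eq_mul, mul_one] at h1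
    rw [h1]
    norm_num
  have hsum : ∀ i, IsOfFinAddOrder (c.sum fun a n => n • a i) := by
    intro i
    rw [key (fun b : Pts W => b i)]
    have : a i - Function.update a 1 0 i - Function.update a 0 0 i + (0 : Pts W) i = 0 := by
      fin_cases i
      · show a 0 - Function.update a 1 0 0 - Function.update a 0 0 0 + 0 = 0
        rw [Function.update_self, Function.update_of_ne (by decide), sub_self, sub_zero, add_zero]
      · show a 1 - Function.update a 1 0 1 - Function.update a 0 0 1 + 0 = 0
        rw [Function.update_self, Function.update_of_ne (by decide), sub_zero, sub_self, add_zero]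
    rw [this]
    exact IsOfFinAddOrder.zero
  have h1 := pw_orth h 2 W hW (pt0 Qb) 0 Qb (LibAC6.funF_zero_of_surj
    Function.surjective_id) (org W) c hsupp hdeg hsum
  unfold act at h1
  rw [key (fun a => cyc (trl a (org W)))] at h1
  exact h1

end Pool.Agent.LibAF11
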