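import Pool.Agent.LibAF11.If

/-!
Reduction to base curves: sums, multiples and matrices of homomorphisms, isogeny classes.
-/

open WeierstrassCurve Pool.Agent.LibBH2 Pool.Agent.LibIG50 Pool.Agent.LibCHd Pool.Agent.LibGG
  Pool.Agent.LibAC34
open scoped Classical ComplexConjugate

namespace Pool.Agent.LibAF11

section
variable {k : Type} [Field k]

/-- integral multiples -/
noncomputable def zs {V W : WeierstrassCurve k} [W.IsElliptic] (n : ℤ) (φ : Hm V W) : Hm V W where
  f F := n • φ.f F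
  nat F G _ _ _ _ σ P := by
    rw [AddMonoidHom.smul_apply, AddMonoidHom.smul_apply, φ.nat, map_zsmul]
  sp K _ _ v P p h := by
    rw [AddMonoidHom.smul_apply, AddMonoidHom.smul_apply]
    exact spR_zsmul n (φ.sp K v P p h)

theorem zs_f {V W : WeierstrassCurve k} [W.IsElliptic] (n : ℤ) (φ : Hm V W) (F : Type) [Field F]
    [Algebra k F] (P : (V⁄F).toAffine.Point) : (zs n φ).f F P = n • φ.f F P := rfl

theorem SpR_sum {K : Type} [Field K] [Algebra k K] {v : Place k K} {W : WeierstrassCurve k}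
    [W.IsElliptic] {ι : Type} (s : Finset ι) (P : ι → (W⁄K).toAffine.Point)
    (p : ι → (W⁄(RF v)).toAffine.Point) (h : ∀ i ∈ s, SpR v (P i) (p i)) :
    SpR v (∑ i ∈ s, P i) (∑ i ∈ s, p i) := by
  induction s using Finset.induction_on with
  | empty => exact rfl
  | insert a s ha ih =>
    rw [Finset.sum_insert ha, Finset.sum_insert ha]
    exact SpR_add (h a (Finset.mem_insert_self _ _))
      (ih fun i hi => h i (Finset.mem_insert_of_mem hi))

/-- the product of two matrices of homomorphisms -/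
noncomputable def mc {D r s : ℕ} {V : Fin D → WeierstrassCurve k} {W : Fin r → WeierstrassCurve k}
    {X : Fin s → WeierstrassCurve k} (hX : ∀ x, (X x).IsElliptic) (f : Mor W X) (N : Mor V W) :
    Mor V X := fun x a =>
  { f := fun F _ _ => ∑ i, ((f x i).f F).comp ((N i a).f F)
    nat := fun F G _ _ _ _ σ P => by
      rw [AddMonoidHom.finsetSum_apply, AddMonoidHom.finsetSum_apply, map_sum]
      refine Finset.sum_congr rfl fun i _ => ?_
      rw [AddMonoidHom.comp_apply, AddMonoidHom.comp_apply, (N i a).nat, (f x i).nat]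
    sp := fun K _ _ v P p h => by
      have := hX x
      rw [AddMonoidHom.finsetSum_apply, AddMonoidHom.finsetSum_apply]
      exact SpR_sum _ _ _ fun i _ => (f x i).sp K v _ _ ((N i a).sp K v _ _ h) }

theorem mc_f {D r s : ℕ} {V : Fin D → WeierstrassCurve k} {W : Fin r → WeierstrassCurve k}
    {X : Fin s → WeierstrassCurve k} (hX : ∀ x, (X x).IsElliptic) (f : Mor W X) (N : Mor V W)
    (x : Fin s) (a : Fin D) (F : Type) [Field F] [Algebra k F] (P : ((V a)⁄F).toAffine.Point) :
    (mc hX f N x a).f F P = ∑ i, (f x i).f F ((N i a).f F P) := by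
  show (∑ i, ((f x i).f F).comp ((N i a).f F)) P = _
  rw [AddMonoidHom.finsetSum_apply]
  rfl

/-- the homomorphism of a pair between equal curves -/
noncomputable def pr {V W : WeierstrassCurve k} [W.IsElliptic] (w : Hm W W) (p : ℤ × ℤ) :
    Hm V W where
  f F := (sm w F p).comp (AddMonoidHom.mk' (tr V W) fun P Q => tr_add P Q)
  nat F G _ _ _ _ σ P := by
    show sm w G p (tr V W (mp σ P)) = mp σ (sm w F p (tr V W P))
    rw [mp_sm, mp_tr]
  sp K _ _ v P q h := by
    show SpR v (sm w K p (tr V W P)) (sm w (RF v) p (tr V W q))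
    exact spR_sm w p (spR_tr W h)

theorem pr_f {V W : WeierstrassCurve k} [W.IsElliptic] (w : Hm W W) (p : ℤ × ℤ) (F : Type)
    [Field F] [Algebra k F] (P : (V⁄F).toAffine.Point) :
    (pr w p : Hm V W).f F P = sm w F p (tr V W P) := rfl

end

/-! ### isogeny classes -/

/-- two curves are isogenous -/
def Isog (V W : WeierstrassCurve Qb) : Prop :=
  ∃ φ : Hm V W, ∃ p : V.toAffine.Point, φ.k0 p ≠ 0

theorem exists_nontors (W : WeierstrassCurve Qb) [W.IsElliptic] :
    ∃ P : W.toAffine.Point, ∀ n : ℤ, n ≠ 0 → n • P ≠ 0 := by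
  obtain ⟨Q, hQ⟩ := Gam_rank W (2 ^ 5)⁻¹ (by
    rw [map_inv₀, map_pow, norm_inv, norm_pow, norm_two]
    norm_num)
  refine ⟨(Q 0 : W.toAffine.Point), fun n hn h => ?_⟩
  have h1 : n • Q 0 = 0 := by
    apply Subtype.ext
    rw [AddSubgroup.coe_zsmul]
    exact h
  have h2 := (linearIndependent_iff'.1 hQ) {0} (fun _ => n) (by
    rw [Finset.sum_singleton]; exact h1) 0 (Finset.mem_singleton_self _)
  exact hn h2

theorem Isog.refl (W : WeierstrassCurve Qb) [W.IsElliptic] : Isog W W := by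
  obtain ⟨P, hP⟩ := exists_nontors W
  refine ⟨Hm.id W, P, ?_⟩
  rw [k0_id]
  have := hP 1 one_ne_zero
  rwa [one_smul] at this

theorem k0_zsmul {V W : WeierstrassCurve Qb} (φ : Hm V W) (n : ℤ) (P : V.toAffine.Point) :
    φ.k0 (n • P) = n • φ.k0 P := map_zsmul φ.k0H n P

theorem k0_of_f {V W : WeierstrassCurve Qb} (φ : Hm V W) (P : V.toAffine.Point)
    (Q : W.toAffine.Point) (h : φ.f Qb (constPt Qb P) = constPt Qb Q) : φ.k0 P = Q :=
  constPt_inj' (F := Qb) (by rw [← φ.const, h])

theorem Isog.symm {V W : WeierstrassCurve Qb} [V.IsElliptic] [W.IsElliptic] (h : Isog V W) :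
    Isog W V := by
  obtain ⟨φ, hφ⟩ := h
  obtain ⟨n, ψ, hn, h1, h2⟩ := exists_dual φ hφ
  obtain ⟨P, hP⟩ := exists_nontors V
  refine ⟨ψ, φ.k0 P, fun h => hP n (by exact_mod_cast hn.ne') ?_⟩
  rw [← h]
  symm
  rw [← k0_comp]
  apply k0_of_f
  show ψ.f Qb (φ.f Qb (constPt Qb P)) = _
  rw [h1, HG_const_zsmul, natCast_zsmul]

theorem k0_surj {V W : WeierstrassCurve Qb} [V.IsElliptic] [W.IsElliptic] (φ : Hm V W)
    (h : ∃ p : V.toAffine.Point, φ.k0 p ≠ 0) : Function.Surjective φ.k0 := by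
  intro Q
  obtain ⟨P, hP⟩ := surj φ h Qb (constPt Qb Q)
  refine ⟨un P, k0_of_f φ _ Q ?_⟩
  rw [← hP]
  congr 1
  rw [constPt_un Qb P]
  match P with
  | .zero => exact mp_zero _
  | .some x y h =>
    obtain ⟨h1, e1⟩ := mp_some (Algebra.ofId Qb Qb) x y h
    rw [e1]
    rfl

theorem Isog.trans {U V W : WeierstrassCurve Qb} [U.IsElliptic] [V.IsElliptic] [W.IsElliptic]
    (h : Isog U V) (h' : Isog V W) : Isog U W := by
  obtain ⟨φ, hφ⟩ := h
  obtain ⟨ψ, q, hq⟩ := h'
  obtain ⟨p, hp⟩ := k0_surj φ hφ q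
  refine ⟨ψ.comp φ, p, ?_⟩
  rw [k0_comp, hp]
  exact hq

/-- the isogeny relation on the elliptic curves -/
def isogSetoid : Setoid {E : WeierstrassCurve Qb // E.IsElliptic} where
  r E E' := Isog E.1 E'.1
  iseqv := ⟨fun E => by have := E.2; exact Isog.refl E.1,
    fun {E E'} h => by have := E.2; have := E'.2; exact h.symm,
    fun {E E' E''} h h' => by
      have := E.2; have := E'.2; have := E''.2; exact h.trans h'⟩

/-- a curve in the isogeny class -/
noncomputable def base (E : WeierstrassCurve Qb) (hE : E.IsElliptic) : WeierstrassCurve Qb :=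
  (Quotient.out (Quotient.mk isogSetoid ⟨E, hE⟩)).1

theorem base_elliptic (E : WeierstrassCurve Qb) (hE : E.IsElliptic) : (base E hE).IsElliptic :=
  (Quotient.out (Quotient.mk isogSetoid ⟨E, hE⟩)).2

theorem base_isog (E : WeierstrassCurve Qb) (hE : E.IsElliptic) : Isog (base E hE) E :=
  Quotient.exact (s := isogSetoid) (Quotient.out_eq (Quotient.mk isogSetoid ⟨E, hE⟩))

theorem base_eq {E E' : WeierstrassCurve Qb} (hE : E.IsElliptic) (hE' : E'.IsElliptic)
    (h : Isog E E') : base E hE = base E' hE' := by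
  unfold base
  have h1 : Quotient.mk isogSetoid ⟨E, hE⟩ = Quotient.mk isogSetoid ⟨E', hE'⟩ :=
    Quotient.sound (s := isogSetoid) h
  rw [h1]

theorem base_base {E E' : WeierstrassCurve Qb} (hE : E.IsElliptic) (hE' : E'.IsElliptic)
    (h : Isog (base E hE) (base E' hE')) : base E hE = base E' hE' := by
  have := base_elliptic E hE
  have := base_elliptic E' hE'
  have h1 : Isog E E' := ((base_isog E hE).symm.trans h).trans (base_isog E' hE')
  exact base_eq hE hE' h1

end Pool.Agent.LibAF11
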