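import Pool.Agent.LibAF11.Red1

/-!
Reduction to base curves: complex multiplications, matrices of pairs.
-/

open WeierstrassCurve Pool.Agent.LibBH2 Pool.Agent.LibIG50 Pool.Agent.LibCHd Pool.Agent.LibGG
  Pool.Agent.LibAC34
open scoped Classical ComplexConjugate

namespace Pool.Agent.LibAF11

theorem exists_CM : ∃ c : CM, ∀ (E : WeierstrassCurve Qb), E.IsElliptic → ∀ f : Hm E E,
    ∃ (Q : ℕ) (x y : ℤ), 0 < Q ∧ ((c.ω E).im = 0 → y = 0) ∧
      ∀ (F : Type) [Field F] [Algebra Qb F] (P : (E⁄F).toAffine.Point),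
        Q • f.f F P = x • P + y • (c.w E).f F P := by
  have h : ∀ E : WeierstrassCurve Qb, ∃ (w : Hm E E) (t n : ℤ) (ω : ℂ), Quad w t n ∧
      ω + conj ω = t ∧ ω * conj ω = n ∧
      (ω.im = 0 → ω = 0 ∧ (∀ (F : Type) [Field F] [Algebra Qb F] (P : (E⁄F).toAffine.Point),
        w.f F P = 0)) ∧
      (E.IsElliptic → ∀ f : Hm E E, ∃ (Q : ℕ) (x y : ℤ), 0 < Q ∧ (ω.im = 0 → y = 0) ∧
        ∀ (F : Type) [Field F] [Algebra Qb F] (P : (E⁄F).toAffine.Point),
          Q • f.f F P = x • P + y • w.f F P) := by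
    intro E
    by_cases hE : E.IsElliptic
    · obtain ⟨w, t, n, ω, h1, h2, h3, h4, h5⟩ := exists_cm E
      refine ⟨w, t, n, ω, h1, h2, h3, fun h => ⟨(h4 h).2.1, (h4 h).1⟩, fun _ f => ?_⟩
      obtain ⟨Q, x, y, hQ, hf⟩ := h5 f
      by_cases him : ω.im = 0
      · refine ⟨Q, x, 0, hQ, fun _ => rfl, fun F _ _ P => ?_⟩
        rw [hf, (h4 him).1, smul_zero, smul_zero]
      · exact ⟨Q, x, y, hQ, fun h => absurd h him, hf⟩
    · refine ⟨{ f := fun F _ _ => 0, nat := ?_, sp := ?_ }, 0, 0, 0, ?_, by simp, by simp, ?_,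
        fun h => absurd h hE⟩
      · intro F G _ _ _ _ σ P
        rw [AddMonoidHom.zero_apply, AddMonoidHom.zero_apply, map_zero]
      · intro K _ _ v P p _
        exact rfl
      · intro F _ _ P
        rw [AddMonoidHom.zero_apply, AddMonoidHom.zero_apply, zero_smul, zero_smul, sub_zero]
      · exact fun _ => ⟨rfl, fun F _ _ P => rfl⟩
  choose w t n ω h1 h2 h3 h4 h5 using h
  exact ⟨⟨w, ω, t, n, h1, h2, h3, h4⟩, h5⟩

theorem sm_zsmul {k : Type} [Field k] {E : WeierstrassCurve k} (w : Hm E E) {F : Type} [Field F]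
    [Algebra k F] (n : ℤ) (p : ℤ × ℤ) (P : (E⁄F).toAffine.Point) :
    sm w F (n • p) P = n • sm w F p P := by
  rw [sm_apply, sm_apply, smul_add, smul_smul, smul_smul]
  rfl

theorem sm_zero' {k : Type} [Field k] {E : WeierstrassCurve k} (w : Hm E E) {F : Type} [Field F]
    [Algebra k F] (P : (E⁄F).toAffine.Point) : sm w F (0 : ℤ × ℤ) P = 0 := by
  rw [sm_apply, Prod.fst_zero, Prod.snd_zero, zero_smul, zero_smul, add_zero]

/-- the full property of a choice of complex multiplications -/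
def Full (c : CM) : Prop :=
  ∀ (E : WeierstrassCurve Qb), E.IsElliptic → ∀ f : Hm E E,
    ∃ (Q : ℕ) (x y : ℤ), 0 < Q ∧ ((c.ω E).im = 0 → y = 0) ∧
      ∀ (F : Type) [Field F] [Algebra Qb F] (P : (E⁄F).toAffine.Point),
        Q • f.f F P = x • P + y • (c.w E).f F P

theorem one_pair {c : CM} (hc : Full c) {V W : WeierstrassCurve Qb} (hV : V.IsElliptic)
    (hW : W.IsElliptic) (hb : Isog V W → V = W) (f : Hm V W) :
    ∃ (Q : ℕ) (p : ℤ × ℤ), 0 < Q ∧ (V ≠ W → p = 0) ∧ ((c.ω W).im = 0 → p.2 = 0) ∧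
      ∀ (F : Type) [Field F] [Algebra Qb F] (P : (V⁄F).toAffine.Point),
        Q • f.f F P = sm (c.w W) F p (tr V W P) := by
  by_cases h : V = W
  · subst h
    obtain ⟨Q, x, y, hQ, hy, hf⟩ := hc V hV f
    refine ⟨Q, (x, y), hQ, fun h => absurd rfl h, hy, fun F _ _ P => ?_⟩
    rw [hf, tr_self, sm_apply]
  · refine ⟨1, 0, one_pos, fun _ => rfl, fun _ => rfl, fun F _ _ P => ?_⟩
    rw [sm_zero', one_smul]
    rcases zero_or f with h1 | h1
    · exact h1 F P
    · exact absurd (hb ⟨f, h1⟩) h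

/-- a common multiple -/
theorem family_pair {c : CM} (hc : Full c) {X : Type} [Fintype X]
    (V W : X → WeierstrassCurve Qb) (hV : ∀ x, (V x).IsElliptic) (hW : ∀ x, (W x).IsElliptic)
    (hb : ∀ x, Isog (V x) (W x) → V x = W x) (f : ∀ x, Hm (V x) (W x)) :
    ∃ Q : ℕ, 0 < Q ∧ ∃ p : X → ℤ × ℤ, (∀ x, V x ≠ W x → p x = 0) ∧
      (∀ x, (c.ω (W x)).im = 0 → (p x).2 = 0) ∧
      ∀ x (F : Type) [Field F] [Algebra Qb F] (P : ((V x)⁄F).toAffine.Point),
        Q • (f x).f F P = sm (c.w (W x)) F (p x) (tr (V x) (W x) P) := by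
  choose Q p h1 h2 h3 h4 using fun x => one_pair hc (hV x) (hW x) (hb x) (f x)
  refine ⟨∏ x, Q x, Finset.prod_pos fun x _ => h1 x,
    fun x => (∏ y ∈ Finset.univ.erase x, (Q y : ℤ)) • p x,
    fun x hx => by
      have := h2 x hx
      dsimp only
      rw [this, smul_zero],
    fun x hx => ?_, fun x F _ _ P => ?_⟩
  · have := h3 x hx
    dsimp only
    rw [Prod.smul_snd, this, smul_zero]
  · rw [sm_zsmul, ← h4, ← Finset.mul_prod_erase Finset.univ Q (Finset.mem_univ x), mul_comm,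
      mul_smul, ← natCast_zsmul]
    push_cast
    rfl

end Pool.Agent.LibAF11
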