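import Pool.Agent.LibAF11.Red2

/-!
Reduction to base curves: change of the generic point.
-/

open WeierstrassCurve Pool.Agent.LibBH2 Pool.Agent.LibIG50 Pool.Agent.LibCHd Pool.Agent.LibGG
  Pool.Agent.LibAC34
open scoped Classical ComplexConjugate

namespace Pool.Agent.LibAF11

/-- isogenies to and from the curves in the isogeny classes, with the same degree -/
theorem uniform {n : ℕ} (X : Fin n → WeierstrassCurve Qb) (hX : ∀ i, (X i).IsElliptic) :
    ∃ (φ : ∀ i, Hm (base (X i) (hX i)) (X i)) (ψ : ∀ i, Hm (X i) (base (X i) (hX i))) (q : ℕ),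
      0 < q ∧ (∀ i (F : Type) [Field F] [Algebra Qb F]
        (P : ((base (X i) (hX i))⁄F).toAffine.Point), (ψ i).f F ((φ i).f F P) = q • P) ∧
      ∀ i (F : Type) [Field F] [Algebra Qb F] (P : ((X i)⁄F).toAffine.Point),
        (φ i).f F ((ψ i).f F P) = q • P := by
  have h : ∀ i, ∃ (q : ℕ) (φ : Hm (base (X i) (hX i)) (X i)) (ψ : Hm (X i) (base (X i) (hX i))),
      0 < q ∧ (∀ (F : Type) [Field F] [Algebra Qb F]
        (P : ((base (X i) (hX i))⁄F).toAffine.Point), ψ.f F (φ.f F P) = q • P) ∧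
      ∀ (F : Type) [Field F] [Algebra Qb F] (P : ((X i)⁄F).toAffine.Point),
        φ.f F (ψ.f F P) = q • P := by
    intro i
    have := hX i
    have := base_elliptic (X i) (hX i)
    obtain ⟨φ, hφ⟩ := base_isog (X i) (hX i)
    obtain ⟨q, ψ, hq, h1, h2⟩ := exists_dual φ hφ
    exact ⟨q, φ, ψ, hq, h1, h2⟩
  choose q φ ψ hq h1 h2 using h
  have hX' : ∀ i, (base (X i) (hX i)).IsElliptic := fun i => base_elliptic (X i) (hX i)
  have e : ∀ i, (∏ j ∈ Finset.univ.erase i, (q j : ℤ)) * (q i : ℤ) = ((∏ j, q j : ℕ) : ℤ) := by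
    intro i
    rw [← Finset.mul_prod_erase Finset.univ q (Finset.mem_univ i)]
    push_cast
    exact mul_comm _ _
  refine ⟨φ, fun i => zs (∏ j ∈ Finset.univ.erase i, (q j : ℤ)) (ψ i), ∏ j, q j,
    Finset.prod_pos fun i _ => hq i, fun i F _ _ P => ?_, fun i F _ _ P => ?_⟩
  · rw [zs_f, h1, ← natCast_zsmul, smul_smul, e, natCast_zsmul]
  · rw [zs_f, map_zsmul, h2, ← natCast_zsmul, smul_smul, e, natCast_zsmul]

variable {c : CM} {D r : ℕ}

theorem tors_iff {G : Type} [AddCommGroup G] {x y : G} {n m : ℤ} (hn : n ≠ 0) (hm : m ≠ 0)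
    (h : IsOfFinAddOrder (n • x - m • y)) : IsOfFinAddOrder x ↔ IsOfFinAddOrder y := by
  have hz : ∀ {x : G} {n : ℤ}, n ≠ 0 → IsOfFinAddOrder (n • x) → IsOfFinAddOrder x := by
    intro x n hn h
    rw [isOfFinAddOrder_iff_zsmul_eq_zero] at h ⊢
    obtain ⟨l, hl, h⟩ := h
    exact ⟨l * n, mul_ne_zero hl hn, by rw [mul_smul]; exact h⟩
  constructor
  · intro hx
    apply hz hm
    have : m • y = n • x - (n • x - m • y) := by abel
    rw [this]
    exact (AddCommGroup.torsion G).sub_mem (IsOfFinAddOrder.zsmul hx) h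
  · intro hy
    apply hz hn
    have : n • x = (n • x - m • y) + m • y := by abel
    rw [this]
    exact h.add hy.zsmul

theorem tors_sum {G J : Type} [AddCommGroup G] [Fintype J] (m : J → ℤ) (a b t : J → G) {n δ : ℤ}
    (hn : n ≠ 0) (hδ : δ ≠ 0) (h1 : ∀ j, t j = δ • b j)
    (h2 : ∀ j, IsOfFinAddOrder (t j - n • a j)) :
    IsOfFinAddOrder (∑ j, m j • a j) ↔ IsOfFinAddOrder (∑ j, m j • b j) := by
  refine tors_iff (n := n) (m := δ) hn hδ ?_
  have e4 : n • ∑ j, m j • a j - δ • ∑ j, m j • b j = ∑ j, -(m j • (t j - n • a j)) := by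
    rw [Finset.smul_sum, Finset.smul_sum, ← Finset.sum_sub_distrib]
    refine Finset.sum_congr rfl fun j _ => ?_
    rw [h1, smul_comm n (m j), smul_comm δ (m j), smul_sub, neg_sub]
  rw [e4]
  exact (AddCommGroup.torsion G).sum_mem fun j _ =>
    (AddCommGroup.torsion G).neg_mem ((AddCommGroup.torsion G).zsmul_mem (h2 j) (m j))

theorem pnt_linC {k : Type} [Field k] {V' : Fin D → WeierstrassCurve k}
    {W' W : Fin r → WeierstrassCurve k} [hW' : ∀ i, (W' i).IsElliptic]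
    (w : ∀ E : WeierstrassCurve k, Hm E E) (φ : ∀ i, Hm (W' i) (W i))
    (NP : Matrix (Fin r) (Fin D) (ℤ × ℤ)) (g : Pts W) (g' : Pts W')
    (hg : ∀ i, (φ i).k0 (g' i) = g i) {L K : Type} [Field L] [Algebra k L] [Field K] [Algebra k K]
    (l : L →ₐ[k] K) (η : ∀ a, ((V' a)⁄K).toAffine.Point) {Y : Prj k} (u : Pnt W Y L) :
    pnt l η (fun i a => (φ i).comp (pr (w (W' i)) (NP i a) : Hm (V' a) (W' i))) g u =
      linC w l φ η NP g' u := by
  apply pnt_ext
  · funext i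
    have h1 : (φ i).f K (constPt K (g' i) + ∑ a, sm (w (W' i)) K (NP i a)
        (tr (V' a) (W' i) (η a))) = constPt K (g i) + ∑ a, (φ i).f K
        (sm (w (W' i)) K (NP i a) (tr (V' a) (W' i) (η a))) := by
      rw [map_add, (φ i).const, hg, map_sum]
    show constPt K (g i) + (∑ a, (φ i).f K (sm (w (W' i)) K (NP i a) (tr (V' a) (W' i) (η a))) +
      (u.map l).z i) = (φ i).f K (constPt K (g' i) + ∑ a, sm (w (W' i)) K (NP i a)
        (tr (V' a) (W' i) (η a))) + (u.map l).z i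
    rw [h1, add_assoc]
  · rfl

/-- the change to a generic point of the product of the curves `V'` -/
theorem transfer {V V' : Fin D → WeierstrassCurve Qb} {W' W : Fin r → WeierstrassCurve Qb}
    (hV : ∀ a, (V a).IsElliptic) (hV' : ∀ a, (V' a).IsElliptic) (hW' : ∀ i, (W' i).IsElliptic)
    (hW : ∀ i, (W i).IsElliptic)
    (β : ∀ a, Hm (V a) (V' a)) (hβ : ∀ a, ∃ p : (V a).toAffine.Point, (β a).k0 p ≠ 0)
    (φ : ∀ i, Hm (W' i) (W i)) {J : Type} [Fintype J] (m : J → ℤ) (N : J → Mor V W)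
    (g : J → Pts W) (g' : J → Pts W') (hg : ∀ j i, (φ i).k0 (g' j i) = g j i) {n : ℤ}
    (hn : n ≠ 0) (NP : J → Matrix (Fin r) (Fin D) (ℤ × ℤ))
    (hN : ∀ j i a (F : Type) [Field F] [Algebra Qb F] (P : ((V a)⁄F).toAffine.Point),
      n • (N j i a).f F P =
        (φ i).f F (sm (c.w (W' i)) F (NP j i a) (tr (V' a) (W' i) ((β a).f F P))))
    {e : ℕ} {L K : Type} [Field L] [Algebra Qb L] [Field K] [Algebra Qb K] {l : L →ₐ[Qb] K}
    {η : ∀ a, ((V a)⁄K).toAffine.Point} (h : IsGen e l V η) {Y : Prj Qb} (u : Pnt W Y L) :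
    ∃ (K' : IntermediateField Qb K) (l' : L →ₐ[Qb] K') (η' : ∀ a, ((V' a)⁄K').toAffine.Point),
      IsGen e l' V' η' ∧
      (IsOfFinAddOrder (∑ j, m j • cls l (e + D) η u (N j) (g j)) ↔
        IsOfFinAddOrder (∑ j, m j • clC c.w l' (e + D) φ η' u (NP j) (g' j))) := by
  obtain ⟨K', l', η', δ, -, -, hgen, hδ, hcyc⟩ := gen_sub h hV V' hV' β hβ
  refine ⟨K', l', η', hgen, ?_⟩
  have hW'' := hW'
  have hW3 := hW
  let S : J → Mor V' W := fun j i a => (φ i).comp (pr (c.w (W' i)) (NP j i a))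
  have e1 : ∀ j, cls l (e + D) η u (fun i a => (S j i a).comp (β a)) (g j) =
      (δ : ℤ) • clC c.w l' (e + D) φ η' u (NP j) (g' j) := by
    intro j
    have e2 : pnt l' η' (S j) (g j) u = linC c.w l' φ η' (NP j) (g' j) u :=
      pnt_linC c.w φ (NP j) (g j) (g' j) (hg j) l' η' u
    unfold cls clC
    rw [hcyc r W Y (S j) (g j) u, e2, natCast_zsmul]
    exact map_nsmul (QuotientAddGroup.mk' (RatEq W Y (e + D))) _ _
  have e3 : ∀ j, IsOfFinAddOrder (cls l (e + D) η u (fun i a => (S j i a).comp (β a)) (g j) -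
      n ^ (2 * D) • cls l (e + D) η u (N j) (g j)) := by
    intro j
    refine cls_smul h hV hW n (N j) _ (fun i a F _ _ P => ?_) (g j) u
    rw [hN]
    rfl
  exact tors_sum m _ _ _ (pow_ne_zero (2 * D) hn) (by exact_mod_cast hδ.ne') e1 e3

end Pool.Agent.LibAF11
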