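import Pool.Agent.LibAF11.Red3
import Pool.Agent.LibAF11.Orth

/-!
Reduction to base curves: the data of a family of homomorphisms.
-/

open WeierstrassCurve Pool.Agent.LibBH2 Pool.Agent.LibIG50 Pool.Agent.LibCHd Pool.Agent.LibGG
  Pool.Agent.LibAC34
open scoped Classical ComplexConjugate

namespace Pool.Agent.LibAF11

theorem k0_mul {V W : WeierstrassCurve Qb} (φ : Hm V W) (ψ : Hm W V) {n : ℕ}
    (h : ∀ (F : Type) [Field F] [Algebra Qb F] (P : (V⁄F).toAffine.Point),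
      ψ.f F (φ.f F P) = n • P) (P : V.toAffine.Point) : ψ.k0 (φ.k0 P) = n • P := by
  rw [← k0_comp]
  apply k0_of_f
  show ψ.f Qb (φ.f Qb (constPt Qb P)) = _
  rw [h, ← natCast_zsmul, ← natCast_zsmul, HG_const_zsmul]

theorem k0_ne_of {V W : WeierstrassCurve Qb} [V.IsElliptic] (φ : Hm V W) (ψ : Hm W V) {n : ℕ}
    (hn : 0 < n) (h : ∀ (F : Type) [Field F] [Algebra Qb F] (P : (V⁄F).toAffine.Point),
      ψ.f F (φ.f F P) = n • P) : ∃ p : V.toAffine.Point, φ.k0 p ≠ 0 := by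
  obtain ⟨P, hP⟩ := exists_nontors V
  refine ⟨P, fun h0 => hP n (by exact_mod_cast hn.ne') ?_⟩
  rw [natCast_zsmul, ← k0_mul φ ψ h, h0]
  exact map_zero ψ.k0H

variable {c : CM} {D r : ℕ}

/-- the data: isogenies with the curves in the isogeny classes and matrices of pairs -/
structure Dat (c : CM) {D r : ℕ} (V V' : Fin D → WeierstrassCurve Qb)
    (W W' : Fin r → WeierstrassCurve Qb) (J : Type) (N : J → Mor V W) where
  β : ∀ a, Hm (V a) (V' a)
  φ : ∀ i, Hm (W' i) (W i)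
  ψ : ∀ i, Hm (W i) (W' i)
  q : ℕ
  n : ℕ
  NP : J → Matrix (Fin r) (Fin D) (ℤ × ℤ)
  hq : 0 < q
  hn : 0 < n
  hβ : ∀ a, ∃ p : (V a).toAffine.Point, (β a).k0 p ≠ 0
  ψφ : ∀ i (F : Type) [Field F] [Algebra Qb F] (P : ((W' i)⁄F).toAffine.Point),
    (ψ i).f F ((φ i).f F P) = q • P
  φψ : ∀ i (F : Type) [Field F] [Algebra Qb F] (P : ((W i)⁄F).toAffine.Point),
    (φ i).f F ((ψ i).f F P) = q • P
  mat : ∀ j, MatC c V' W' (NP j)
  rel : ∀ j i a (F : Type) [Field F] [Algebra Qb F] (P : ((V a)⁄F).toAffine.Point),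
    (n : ℤ) • (N j i a).f F P =
      (φ i).f F (sm (c.w (W' i)) F (NP j i a) (tr (V' a) (W' i) ((β a).f F P)))

theorem exists_dat (hc : Full c) {V : Fin D → WeierstrassCurve Qb}
    (hV : ∀ a, (V a).IsElliptic) {W : Fin r → WeierstrassCurve Qb} (hW : ∀ i, (W i).IsElliptic)
    {J : Type} [Fintype J] (N : J → Mor V W) :
    Nonempty (Dat c V (fun a => base (V a) (hV a)) W (fun i => base (W i) (hW i)) J N) := by
  obtain ⟨α, β, p, hp, h1, h2⟩ := uniform V hV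
  obtain ⟨φ, ψ, q, hq, h3, h4⟩ := uniform W hW
  obtain ⟨Q, hQ, NP, h5, h6, h7⟩ := family_pair hc (X := J × Fin r × Fin D)
    (fun x => base (V x.2.2) (hV x.2.2)) (fun x => base (W x.2.1) (hW x.2.1))
    (fun x => base_elliptic _ _) (fun x => base_elliptic _ _)
    (fun x h => base_base _ _ h)
    (fun x => (ψ x.2.1).comp ((N x.1 x.2.1 x.2.2).comp (α x.2.2)))
  refine ⟨⟨β, φ, ψ, q, q * (Q * p), fun j i a => NP (j, i, a), hq,
    Nat.mul_pos hq (Nat.mul_pos hQ hp), fun a => ?_, h3, h4, fun j i a =>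
    ⟨h5 (j, i, a), h6 (j, i, a)⟩, fun j i a F _ _ P => ?_⟩⟩
  · have := hV a
    exact k0_ne_of (β a) (α a) hp (h2 a)
  · rw [← h7 (j, i, a)]
    show _ = (φ i).f F (Q • (ψ i).f F ((N j i a).f F ((α a).f F ((β a).f F P))))
    rw [h2, map_nsmul, h4, map_nsmul, smul_smul, smul_smul, natCast_zsmul]
    congr 1
    ring

/-- **The first half.** -/
theorem up {Γ : Grid} (hΓ : Pw Γ) {V V' : Fin D → WeierstrassCurve Qb}
    {W W' : Fin r → WeierstrassCurve Qb}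
    (hV : ∀ a, (V a).IsElliptic) (hV' : ∀ a, (V' a).IsElliptic) (hW' : ∀ i, (W' i).IsElliptic)
    (hW : ∀ i, (W i).IsElliptic) {J : Type} [Fintype J] {N : J → Mor V W}
    (d : Dat c V V' W W' J N) (m : J → ℤ) (g : J → Pts W) (g' : J → Pts W')
    (hgΓ : ∀ j i, g j i ∈ Γ (W i)) (hg : ∀ j i, (d.φ i).k0 (g' j i) = g j i)
    (hom : ∀ M, MatC c V' W' M →
      ∑ j, m j * Complex.normSq ((cx c W' M).transpose * cx c W' (d.NP j)).det = 0)
    (AJ : ∀ M, MatC c V' W' M → ∀ (E : WeierstrassCurve Qb) (s : Fin r → ℤ),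
        (∀ i, W' i ≠ E → s i = 0) → ∀ lam : E.toAffine.Point →+ ℂ,
        (∀ P, lam ((c.w E).k0 P) = c.ω E * lam P) →
        ∑ j, m j * (conj ((cx c W' M).transpose * cx c W' (d.NP j)).det *
          ((Matrix.fromCols (cx c W' M) (Matrix.replicateCol Unit fun i => (s i : ℂ))).transpose *
            Matrix.fromCols (cx c W' (d.NP j))
              (Matrix.replicateCol Unit fun i => lam (trk (W' i) E (g' j i)))).det) = 0)
    (Y : Prj Qb) (e : ℕ) (L : Type) [Field L] [Algebra Qb L] (u : Pnt W Y L)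
    (K : Type) [Field K] [Algebra Qb K] (l : L →ₐ[Qb] K)
    (η : ∀ a, ((V a)⁄K).toAffine.Point) (h : IsGen e l V η) :
    IsOfFinAddOrder (∑ j, m j • cls l (e + D) η u (N j) (g j)) := by
  obtain ⟨K', l', η', hgen, hiff⟩ := transfer hV hV' hW' hW d.β d.hβ d.φ m N g g' hg
    (n := (d.n : ℤ)) (by exact_mod_cast d.hn.ne') d.NP d.rel h u
  rw [hiff]
  refine all_dimC (pw_orth (satH_pw hΓ)) (satH_fun Γ) c r W' W d.φ hW' hW D V' hV' Y e L u K' l'
    η' hgen J m d.NP g' d.mat (fun j i => ?_) hom AJ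
  apply satH_sat Γ _ _ d.q d.hq.ne'
  rw [← k0_mul (d.φ i) (d.ψ i) (d.ψφ i), hg]
  exact satH_fun Γ _ _ _ _ (le_satH Γ _ (hW i) (hgΓ j i))

end Pool.Agent.LibAF11
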