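import Pool.Agent.LibAF11.Red4

/-!
Reduction to base curves: the tests.
-/

open WeierstrassCurve Pool.Agent.LibBH2 Pool.Agent.LibIG50 Pool.Agent.LibCHd Pool.Agent.LibGG
  Pool.Agent.LibAC34
open scoped Classical ComplexConjugate

namespace Pool.Agent.LibAF11

/-- the product of two pairs, if `w ^ 2 = t w - n` -/
def mp2 (t n : ℤ) (p p' : ℤ × ℤ) : ℤ × ℤ :=
  (p.1 * p'.1 - n * (p.2 * p'.2), p.1 * p'.2 + p.2 * p'.1 + t * (p.2 * p'.2))

theorem mp2_zero_left (t n : ℤ) (p : ℤ × ℤ) : mp2 t n 0 p = 0 := by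
  simp [mp2]

theorem mp2_zero_right (t n : ℤ) (p : ℤ × ℤ) : mp2 t n p 0 = 0 := by
  simp [mp2]

theorem sm_mp2 {k : Type} [Field k] {E : WeierstrassCurve k} (w : Hm E E) {t n : ℤ}
    (hw : Quad w t n) {F : Type} [Field F] [Algebra k F] (p p' : ℤ × ℤ)
    (P : (E⁄F).toAffine.Point) : sm w F (mp2 t n p p') P = sm w F p (sm w F p' P) := by
  simp only [sm_apply, mp2, map_add, map_zsmul, hw F P]
  module

theorem sm_sum {k : Type} [Field k] {E : WeierstrassCurve k} (w : Hm E E) {F : Type} [Field F]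
    [Algebra k F] {ι : Type} (s : Finset ι) (p : ι → ℤ × ℤ) (P : (E⁄F).toAffine.Point) :
    sm w F (∑ i ∈ s, p i) P = ∑ i ∈ s, sm w F (p i) P := by
  induction s using Finset.induction_on with
  | empty => rw [Finset.sum_empty, Finset.sum_empty, sm_zero']
  | insert a s ha ih => rw [Finset.sum_insert ha, Finset.sum_insert ha, sm_add', ih]

theorem trk_zsmul {k : Type} [Field k] {V W : WeierstrassCurve k} (n : ℤ)
    (p : V.toAffine.Point) : trk V W (n • p) = n • trk V W p := by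
  by_cases h : V = W
  · subst h; rw [trk_self, trk_self]
  · rw [trk_ne h, trk_ne h, smul_zero]

theorem k0_pr {V W : WeierstrassCurve Qb} [W.IsElliptic] (w : Hm W W) (p : ℤ × ℤ)
    (P : V.toAffine.Point) : (pr w p : Hm V W).k0 P = smk w p (trk V W P) := by
  apply k0_of_f
  rw [pr_f, ← constPt_tr, sm_const]

variable {c : CM} {D r s : ℕ} {V V' : Fin D → WeierstrassCurve Qb}
    {W W' : Fin r → WeierstrassCurve Qb} {J : Type} {N : J → Mor V W}

/-- the matrix of homomorphisms -/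
noncomputable def tf (d : Dat c V V' W W' J N) (X : Fin s → WeierstrassCurve Qb)
    (hX : ∀ x, (X x).IsElliptic) (P : Matrix (Fin s) (Fin r) (ℤ × ℤ)) : Mor W X := fun x i =>
  (@pr Qb _ (W' i) (X x) (hX x) (c.w (X x)) (P x i)).comp (d.ψ i)

/-- its products with the `N j` -/
noncomputable def tP (d : Dat c V V' W W' J N) (X : Fin s → WeierstrassCurve Qb)
    (P : Matrix (Fin s) (Fin r) (ℤ × ℤ)) (j : J) : Matrix (Fin s) (Fin D) (ℤ × ℤ) := fun x a =>
  (d.q : ℤ) • ∑ i, mp2 (c.t (X x)) (c.n (X x)) (P x i) (d.NP j i a)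

theorem tf_f (d : Dat c V V' W W' J N) (X : Fin s → WeierstrassCurve Qb)
    (hX : ∀ x, (X x).IsElliptic) (P : Matrix (Fin s) (Fin r) (ℤ × ℤ)) (x : Fin s) (i : Fin r)
    (F : Type) [Field F] [Algebra Qb F] (R : ((W i)⁄F).toAffine.Point) :
    (tf d X hX P x i).f F R = sm (c.w (X x)) F (P x i) (tr (W' i) (X x) ((d.ψ i).f F R)) := rfl

theorem tf_rel (d : Dat c V V' W W' J N) (X : Fin s → WeierstrassCurve Qb)
    (hX : ∀ x, (X x).IsElliptic) (P : Matrix (Fin s) (Fin r) (ℤ × ℤ))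
    (hP : ∀ x i, W' i ≠ X x → P x i = 0) (j : J) (x : Fin s) (a : Fin D) (F : Type) [Field F]
    [Algebra Qb F] (R : ((V a)⁄F).toAffine.Point) :
    (d.n : ℤ) • (mc hX (tf d X hX P) (N j) x a).f F R =
      (Hm.id (X x)).f F (sm (c.w (X x)) F (tP d X P j x a) (tr (V' a) (X x) ((d.β a).f F R))) := by
  show _ = sm (c.w (X x)) F (tP d X P j x a) (tr (V' a) (X x) ((d.β a).f F R))
  rw [mc_f, Finset.smul_sum]
  unfold tP
  rw [sm_zsmul, sm_sum, Finset.smul_sum]
  refine Finset.sum_congr rfl fun i _ => ?_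
  rw [tf_f, ← map_zsmul, ← tr_zsmul, ← map_zsmul, d.rel, d.ψφ, ← natCast_zsmul, tr_zsmul,
    map_zsmul]
  congr 1
  by_cases h : W' i = X x
  · rw [sm_mp2 _ (c.quad (X x))]
    congr 1
    have h1 : ∀ (Z : WeierstrassCurve Qb) (hZ : W' i = Z) (p : ℤ × ℤ) (T : ((V' a)⁄F).toAffine.Point),
        tr (W' i) Z (sm (c.w (W' i)) F p (tr (V' a) (W' i) T)) =
          sm (c.w Z) F p (tr (V' a) Z T) := by
      intro Z hZ p T
      subst hZ
      rw [tr_self]
    exact h1 _ h _ _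
  · rw [hP x i h, mp2_zero_left, sm_zero', sm_zero']

theorem tP_mat (d : Dat c V V' W W' J N) (X : Fin s → WeierstrassCurve Qb)
    (P : Matrix (Fin s) (Fin r) (ℤ × ℤ)) (hP : MatC c W' X P) (j : J) :
    MatC c V' X (tP d X P j) := by
  intro x a
  constructor
  · intro h
    unfold tP
    rw [Finset.sum_eq_zero, smul_zero]
    intro i _
    by_cases h1 : W' i = X x
    · rw [((d.mat j) i a).1 (fun h2 => h (h2.trans h1)), mp2_zero_right]
    · rw [(hP x i).1 h1, mp2_zero_left]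
  · intro h
    unfold tP
    rw [Prod.smul_snd, Prod.snd_sum, Finset.sum_eq_zero, smul_zero]
    intro i _
    by_cases h1 : W' i = X x
    · have h2 := (hP x i).2 h
      have h3 := ((d.mat j) i a).2 (by rw [h1]; exact h)
      simp [mp2, h2, h3]
    · rw [(hP x i).1 h1, mp2_zero_left]
      rfl

theorem tP_cx (d : Dat c V V' W W' J N) (X : Fin s → WeierstrassCurve Qb)
    (P : Matrix (Fin s) (Fin r) (ℤ × ℤ)) (hP : MatC c W' X P) (j : J) :
    cx c X (tP d X P j) = (d.q : ℂ) • (cx c X P * cx c W' (d.NP j)) := by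
  ext x a
  rw [Matrix.smul_apply, Matrix.mul_apply, smul_eq_mul]
  unfold cx tP
  simp only [Prod.smul_fst, Prod.smul_snd, Prod.fst_sum, Prod.snd_sum, smul_eq_mul]
  push_cast
  rw [mul_assoc, ← mul_add, Finset.sum_mul, ← Finset.sum_add_distrib]
  congr 1
  refine Finset.sum_congr rfl fun i _ => ?_
  by_cases h1 : W' i = X x
  · rw [h1]
    have h2 : c.ω (X x) ^ 2 = c.t (X x) * c.ω (X x) - c.n (X x) := by
      rw [← c.trace, ← c.norm]
      ring
    simp only [mp2]
    push_cast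
    linear_combination (-(((P x i).2 : ℂ) * ((d.NP j i a).2 : ℂ))) * h2
  · rw [(hP x i).1 h1, mp2_zero_left]
    simp

end Pool.Agent.LibAF11
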