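import Pool.Agent.LibAF11.Red5

/-!
Reduction to base curves: the numbers vanish.
-/

open WeierstrassCurve Pool.Agent.LibBH2 Pool.Agent.LibIG50 Pool.Agent.LibCHd Pool.Agent.LibGG
  Pool.Agent.LibAC34
open scoped Classical ComplexConjugate

namespace Pool.Agent.LibAF11

variable {c : CM} {D r s : ℕ} {V V' : Fin D → WeierstrassCurve Qb}
    {W W' : Fin r → WeierstrassCurve Qb} {J : Type} {N : J → Mor V W}

/-- the image of a point of `A` -/
noncomputable def tg (d : Dat c V V' W W' J N) (X : Fin s → WeierstrassCurve Qb)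
    (hX : ∀ x, (X x).IsElliptic) (P : Matrix (Fin s) (Fin r) (ℤ × ℤ)) (g : Pts W) : Pts X :=
  fun x => ∑ i, (tf d X hX P x i).k0 (g i)

theorem trk_add {k : Type} [Field k] {V W : WeierstrassCurve k}
    (p q : V.toAffine.Point) : trk V W (p + q) = trk V W p + trk V W q := by
  by_cases h : V = W
  · subst h; rw [trk_self, trk_self, trk_self]
  · rw [trk_ne h, trk_ne h, trk_ne h, add_zero]

theorem trk_sum {k : Type} [Field k] {V W : WeierstrassCurve k} {ι : Type} (t : Finset ι)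
    (p : ι → V.toAffine.Point) : trk V W (∑ i ∈ t, p i) = ∑ i ∈ t, trk V W (p i) :=
  map_sum (AddMonoidHom.mk' (trk V W) trk_add) p t

theorem smk_zsmul {E : WeierstrassCurve Qb} (w : Hm E E) (p : ℤ × ℤ) (n : ℤ)
    (P : E.toAffine.Point) : smk w p (n • P) = n • smk w p P := by
  rw [smk, smk, k0_zsmul, smul_add, smul_comm p.1, smul_comm p.2]

theorem tg_lam (d : Dat c V V' W W' J N) (X : Fin s → WeierstrassCurve Qb)
    (hX : ∀ x, (X x).IsElliptic) (P : Matrix (Fin s) (Fin r) (ℤ × ℤ)) (hP : MatC c W' X P)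
    (g : Pts W) (g' : Pts W') (hg : ∀ i, (d.φ i).k0 (g' i) = g i) (E : WeierstrassCurve Qb)
    (lam : E.toAffine.Point →+ ℂ) (hlam : ∀ P, lam ((c.w E).k0 P) = c.ω E * lam P) (x : Fin s) :
    lam (trk (X x) E (tg d X hX P g x)) =
      d.q * ∑ i, cx c X P x i * lam (trk (W' i) E (g' i)) := by
  unfold tg
  rw [trk_sum, map_sum, Finset.mul_sum]
  refine Finset.sum_congr rfl fun i _ => ?_
  have := hX x
  have h1 : (tf d X hX P x i).k0 (g i) =
      (d.q : ℤ) • smk (c.w (X x)) (P x i) (trk (W' i) (X x) (g' i)) := by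
    unfold tf
    rw [k0_comp, k0_pr, ← hg, k0_mul (d.φ i) (d.ψ i) (d.ψφ i), ← natCast_zsmul, trk_zsmul,
      smk_zsmul]
  rw [h1, trk_zsmul, map_zsmul, zsmul_eq_mul]
  push_cast
  congr 1
  by_cases h2 : X x = E
  · have h3 : ∀ (Z : WeierstrassCurve Qb) (p : ℤ × ℤ) (T : Z.toAffine.Point) (hZ : Z = E),
        lam (trk Z E (smk (c.w Z) p T)) = ((p.1 : ℂ) + p.2 * c.ω Z) * lam (trk Z E T) := by
      intro Z p T hZ
      subst hZ
      rw [trk_self, trk_self, smk, map_add, map_zsmul, map_zsmul, hlam, zsmul_eq_mul,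
        zsmul_eq_mul]
      ring
    rw [h3 _ _ _ h2]
    unfold cx
    congr 2
    by_cases h4 : W' i = X x
    · have h5 : ∀ (Z Z' : WeierstrassCurve Qb) (T : Z.toAffine.Point) (hZ : Z = Z'),
          trk Z' E (trk Z Z' T) = trk Z E T := by
        intro Z Z' T hZ
        subst hZ
        rw [trk_self]
      exact h5 _ _ _ h4
    · rw [trk_ne h4, trk_ne (fun h => h4 (h.trans h2.symm))]
      by_cases h6 : X x = E
      · subst h6; rw [trk_self]
      · rw [trk_ne h6]
  · rw [trk_ne h2, map_zero]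
    by_cases h4 : W' i = X x
    · rw [trk_ne (h4 ▸ h2), map_zero, mul_zero]
    · unfold cx
      rw [(hP x i).1 h4]
      simp

theorem img_pnt (d : Dat c V V' W W' J N) (X : Fin s → WeierstrassCurve Qb)
    (hX : ∀ x, (X x).IsElliptic) (P : Matrix (Fin s) (Fin r) (ℤ × ℤ)) (g : Pts W) (M : Mor V W)
    {F : Type} [Field F] [Algebra Qb F] (ξ : ∀ a, ((V a)⁄F).toAffine.Point) :
    img (tf d X hX P) (pnt (Algebra.ofId Qb F) ξ M g (org W)) =
      pnt (Algebra.ofId Qb F) ξ (mc hX (tf d X hX P) M) (tg d X hX P g) (org X) := by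
  apply pnt_ext
  · funext x
    show ∑ i, (tf d X hX P x i).f F (constPt F (g i) + (∑ a, (M i a).f F (ξ a) +
      mp (Algebra.ofId Qb F) 0)) = constPt F (∑ i, (tf d X hX P x i).k0 (g i)) +
      (∑ a, (mc hX (tf d X hX P) M x a).f F (ξ a) + mp (Algebra.ofId Qb F) 0)
    have h1 : (constPt F (∑ i, (tf d X hX P x i).k0 (g i)) : ((X x)⁄F).toAffine.Point) =
        ∑ i, constPt F ((tf d X hX P x i).k0 (g i)) :=
      map_sum (AddMonoidHom.mk' (constPt F) (HG_const_add F) : (X x).toAffine.Point →+ _) _ _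
    have h2 : ∑ a, (mc hX (tf d X hX P) M x a).f F (ξ a) =
        ∑ i, ∑ a, (tf d X hX P x i).f F ((M i a).f F (ξ a)) := by
      rw [Finset.sum_comm]
      exact Finset.sum_congr rfl fun a _ => mc_f hX _ M x a F (ξ a)
    rw [h1, h2]
    simp only [mp_zero, add_zero]
    rw [← Finset.sum_add_distrib]
    refine Finset.sum_congr rfl fun i _ => ?_
    rw [map_add, map_sum, (tf d X hX P x i).const]
  · rfl

theorem cast_tors {r : ℕ} {W : Fin r → WeierstrassCurve Qb} {Y : Prj Qb} {J : Type} [Fintype J]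
    {F : Type} [Field F] [Algebra Qb F] (m : J → ℤ) (u : J → Pnt W Y F) {n n' : ℕ}
    (h : n = n') :
    IsOfFinAddOrder (∑ j, m j • (QuotientAddGroup.mk (cyc (u j)) : CH W Y n)) ↔
      IsOfFinAddOrder (∑ j, m j • (QuotientAddGroup.mk (cyc (u j)) : CH W Y n')) := by
  subst h
  rfl

/-- the numbers of a test -/
theorem test [Fintype J] (d : Dat c V V' W W' J N) (hV : ∀ a, (V a).IsElliptic)
    (hV' : ∀ a, (V' a).IsElliptic) (m : J → ℤ) (g : J → Pts W)
    {F : Type} [Field F] [Algebra Qb F] (ξ : ∀ a, ((V a)⁄F).toAffine.Point)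
    (hξ : IsGen 0 (Algebra.ofId Qb F) V ξ)
    (ha : ∀ X : Fin (D + 1) → WeierstrassCurve Qb, (∀ i, (X i).IsElliptic) → ∀ f : Mor W X,
          IsOfFinAddOrder (∑ j, m j • (QuotientAddGroup.mk
            (cyc (img f (pnt (Algebra.ofId Qb F) ξ (N j) (g j) (org W)))) : CH X (pt0 Qb) D)))
    (X : Fin (D + 1) → WeierstrassCurve Qb) (hX : ∀ x, (X x).IsElliptic)
    (P : Matrix (Fin (D + 1)) (Fin r) (ℤ × ℤ)) (hP : MatC c W' X P) :
    (∀ M, MatC c V' X M →
      ∑ j, m j * Complex.normSq ((cx c X M).transpose * cx c X (tP d X P j)).det = 0) ∧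
    ∀ M, MatC c V' X M → ∀ (E : WeierstrassCurve Qb) (s : Fin (D + 1) → ℤ),
      (∀ i, X i ≠ E → s i = 0) → ∀ lam : E.toAffine.Point →+ ℂ,
      (∀ P, lam ((c.w E).k0 P) = c.ω E * lam P) →
      ∑ j, m j * (conj ((cx c X M).transpose * cx c X (tP d X P j)).det *
        ((Matrix.fromCols (cx c X M) (Matrix.replicateCol Unit fun i => (s i : ℂ))).transpose *
          Matrix.fromCols (cx c X (tP d X P j))
            (Matrix.replicateCol Unit fun i => lam (trk (X i) E
              (tg d X hX P (g j) i)))).det) = 0 := by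
  have h1 := ha X hX (tf d X hX P)
  have h2 : IsOfFinAddOrder (∑ j, m j • cls (Algebra.ofId Qb F) (0 + D) ξ (org X)
      (mc hX (tf d X hX P) (N j)) (tg d X hX P (g j))) := by
    unfold cls
    rw [cast_tors m _ (zero_add D)]
    have h3 : ∀ j, img (tf d X hX P) (pnt (Algebra.ofId Qb F) ξ (N j) (g j) (org W)) =
        pnt (Algebra.ofId Qb F) ξ (mc hX (tf d X hX P) (N j)) (tg d X hX P (g j)) (org X) :=
      fun j => img_pnt d X hX P (g j) (N j) ξ
    simp only [h3] at h1
    exact h1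
  obtain ⟨K', l', η', hgen, hiff⟩ := transfer (c := c) hV hV' hX hX d.β d.hβ
    (fun x => Hm.id (X x)) m
    (fun j => mc hX (tf d X hX P) (N j)) (fun j => tg d X hX P (g j))
    (fun j => tg d X hX P (g j)) (fun j i => k0_id _)
    (n := (d.n : ℤ)) (by exact_mod_cast d.hn.ne') (fun j => tP d X P j)
    (fun j x a F _ _ R => tf_rel d X hX P (fun x i => (hP x i).1) j x a F R) hξ (org X)
  have h4 : l' = Algebra.ofId Qb K' := Subsingleton.elim _ _
  subst h4
  rw [hiff] at h2
  unfold clC at h2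
  rw [cast_tors m _ (zero_add D)] at h2
  exact convC c X hX V' hV' K' η' hgen J m (fun j => tP d X P j) (fun j => tg d X hX P (g j))
    (fun j => tP_mat d X P hP j) h2

end Pool.Agent.LibAF11
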