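import Pool.Agent.LibAF11.Red6

/-!
The numbers of the base family vanish.
-/

open WeierstrassCurve Pool.Agent.LibBH2 Pool.Agent.LibIG50 Pool.Agent.LibCHd Pool.Agent.LibGG
  Pool.Agent.LibAC34
open scoped Classical ComplexConjugate

namespace Pool.Agent.LibAF11

variable {c : CM} {D r : ℕ} {V V' : Fin D → WeierstrassCurve Qb}
    {W W' : Fin r → WeierstrassCurve Qb} {J : Type} {N : J → Mor V W}

/-- the curves `V' 1, ..., V' D, E` -/
noncomputable def snX (V' : Fin D → WeierstrassCurve Qb) (E : WeierstrassCurve Qb) :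
    Fin (D + 1) → WeierstrassCurve Qb :=
  Fin.snoc (α := fun _ => WeierstrassCurve Qb) V' E

theorem snX_castSucc (V' : Fin D → WeierstrassCurve Qb) (E : WeierstrassCurve Qb) (a : Fin D) :
    snX V' E a.castSucc = V' a := by
  unfold snX
  rw [Fin.snoc_castSucc]

theorem snX_last (V' : Fin D → WeierstrassCurve Qb) (E : WeierstrassCurve Qb) :
    snX V' E (Fin.last D) = E := by
  unfold snX
  rw [Fin.snoc_last]

/-- the matrix of the homomorphisms `Mᵀ` and `sᵀ` -/
def snP (M : Matrix (Fin r) (Fin D) (ℤ × ℤ)) (s : Fin r → ℤ) :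
    Matrix (Fin (D + 1)) (Fin r) (ℤ × ℤ) := fun x i =>
  Fin.snoc (α := fun _ => ℤ × ℤ) (fun a => M i a) (s i, 0) x

theorem snP_castSucc (M : Matrix (Fin r) (Fin D) (ℤ × ℤ)) (s : Fin r → ℤ) (a : Fin D)
    (i : Fin r) : snP M s a.castSucc i = M i a := by
  unfold snP
  rw [Fin.snoc_castSucc]

theorem snP_last (M : Matrix (Fin r) (Fin D) (ℤ × ℤ)) (s : Fin r → ℤ) (i : Fin r) :
    snP M s (Fin.last D) i = (s i, 0) := by
  unfold snP
  rw [Fin.snoc_last]

/-- the matrix of the identity of `V'` -/
def snI (D : ℕ) : Matrix (Fin (D + 1)) (Fin D) (ℤ × ℤ) := fun x a =>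
  if x = a.castSucc then (1, 0) else 0

theorem snI_mat (c : CM) (V' : Fin D → WeierstrassCurve Qb) (E : WeierstrassCurve Qb) :
    MatC c V' (snX V' E) (snI D) := by
  intro x a
  unfold snI
  constructor
  · intro h
    rw [if_neg]
    rintro rfl
    exact h (snX_castSucc V' E a).symm
  · intro _
    split_ifs
    · rfl
    · rfl

theorem snP_mat {M : Matrix (Fin r) (Fin D) (ℤ × ℤ)} (hM : MatC c V' W' M)
    {E : WeierstrassCurve Qb} {s : Fin r → ℤ} (hs : ∀ i, W' i ≠ E → s i = 0) :
    MatC c W' (snX V' E) (snP M s) := by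
  intro x i
  induction x using Fin.lastCases with
  | last =>
    rw [snX_last, snP_last]
    exact ⟨fun h => by rw [hs i h]; rfl, fun _ => rfl⟩
  | cast a =>
    rw [snX_castSucc, snP_castSucc]
    refine ⟨fun h => (hM i a).1 (Ne.symm h), fun h => ?_⟩
    by_cases h1 : V' a = W' i
    · exact (hM i a).2 (by rw [← h1]; exact h)
    · rw [(hM i a).1 h1]
      rfl

theorem cx_snI (c : CM) (X : Fin (D + 1) → WeierstrassCurve Qb) {n : Type}
    (Z : Matrix (Fin (D + 1)) n ℂ) (b : Fin D) (y : n) :
    ((cx c X (snI D)).transpose * Z) b y = Z b.castSucc y := by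
  rw [Matrix.mul_apply, Finset.sum_eq_single b.castSucc]
  · rw [Matrix.transpose_apply]
    unfold cx snI
    rw [if_pos rfl]
    simp
  · intro x _ hx
    rw [Matrix.transpose_apply]
    unfold cx snI
    rw [if_neg hx]
    simp
  · intro h
    exact absurd (Finset.mem_univ _) h

theorem cx_snP {M : Matrix (Fin r) (Fin D) (ℤ × ℤ)} (hM : MatC c V' W' M)
    (E : WeierstrassCurve Qb) (s : Fin r → ℤ) (a : Fin D) (i : Fin r) :
    cx c (snX V' E) (snP M s) a.castSucc i = cx c W' M i a := by
  unfold cx
  rw [snP_castSucc, snX_castSucc]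
  by_cases h1 : V' a = W' i
  · rw [h1]
  · rw [(hM i a).1 h1]
    simp

theorem cx_snP_last (M : Matrix (Fin r) (Fin D) (ℤ × ℤ)) (V' : Fin D → WeierstrassCurve Qb)
    (E : WeierstrassCurve Qb) (s : Fin r → ℤ) (i : Fin r) :
    cx c (snX V' E) (snP M s) (Fin.last D) i = s i := by
  unfold cx
  rw [snP_last]
  simp

theorem top_block (d : Dat c V V' W W' J N) {M : Matrix (Fin r) (Fin D) (ℤ × ℤ)}
    (hM : MatC c V' W' M) {E : WeierstrassCurve Qb} {s : Fin r → ℤ}
    (hs : ∀ i, W' i ≠ E → s i = 0) (j : J) :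
    (cx c (snX V' E) (snI D)).transpose * cx c (snX V' E) (tP d (snX V' E) (snP M s) j) =
      (d.q : ℂ) • ((cx c W' M).transpose * cx c W' (d.NP j)) := by
  ext b a
  rw [cx_snI, tP_cx d _ _ (snP_mat hM hs), Matrix.smul_apply, Matrix.smul_apply,
    Matrix.mul_apply, Matrix.mul_apply]
  congr 1
  refine Finset.sum_congr rfl fun i _ => ?_
  rw [cx_snP hM, Matrix.transpose_apply]

theorem full_block (d : Dat c V V' W W' J N) {M : Matrix (Fin r) (Fin D) (ℤ × ℤ)}
    (hM : MatC c V' W' M) {E : WeierstrassCurve Qb} {s : Fin r → ℤ}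
    (hs : ∀ i, W' i ≠ E → s i = 0) (hX : ∀ x, (snX V' E x).IsElliptic)
    (g : Pts W) (g' : Pts W') (hg : ∀ i, (d.φ i).k0 (g' i) = g i)
    (lam : E.toAffine.Point →+ ℂ) (hlam : ∀ P, lam ((c.w E).k0 P) = c.ω E * lam P) (j : J) :
    (Matrix.fromCols (cx c (snX V' E) (snI D)) (Matrix.replicateCol Unit fun x =>
        (((if x = Fin.last D then 1 else 0 : ℤ)) : ℂ))).transpose *
      Matrix.fromCols (cx c (snX V' E) (tP d (snX V' E) (snP M s) j))
        (Matrix.replicateCol Unit fun x => lam (trk (snX V' E x) E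
          (tg d (snX V' E) hX (snP M s) g x))) =
      (d.q : ℂ) • ((Matrix.fromCols (cx c W' M)
        (Matrix.replicateCol Unit fun i => (s i : ℂ))).transpose *
          Matrix.fromCols (cx c W' (d.NP j))
            (Matrix.replicateCol Unit fun i => lam (trk (W' i) E (g' i)))) := by
  have hZ : Matrix.fromCols (cx c (snX V' E) (tP d (snX V' E) (snP M s) j))
        (Matrix.replicateCol Unit fun x => lam (trk (snX V' E x) E
          (tg d (snX V' E) hX (snP M s) g x))) =
      (d.q : ℂ) • (cx c (snX V' E) (snP M s) * Matrix.fromCols (cx c W' (d.NP j))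
            (Matrix.replicateCol Unit fun i => lam (trk (W' i) E (g' i)))) := by
    ext x y
    rw [Matrix.smul_apply, Matrix.mul_apply]
    rcases y with y | y
    · rw [Matrix.fromCols_apply_inl, tP_cx d _ _ (snP_mat hM hs), Matrix.smul_apply,
        Matrix.mul_apply]
      rfl
    · rw [Matrix.fromCols_apply_inr, Matrix.replicateCol_apply,
        tg_lam d _ hX _ (snP_mat hM hs) g g' hg E lam hlam]
      rfl
  rw [hZ]
  ext x y
  rw [Matrix.mul_smul, Matrix.smul_apply, Matrix.smul_apply, ← Matrix.mul_assoc]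
  congr 1
  rw [Matrix.mul_apply, Matrix.mul_apply]
  refine Finset.sum_congr rfl fun i _ => ?_
  congr 1
  rcases x with x | x
  · have h1 := cx_snI c (snX V' E) (cx c (snX V' E) (snP M s)) x i
    rw [cx_snP hM] at h1
    exact h1
  · rw [Matrix.mul_apply, Finset.sum_eq_single (Fin.last D)]
    · rw [Matrix.transpose_apply, Matrix.fromCols_apply_inr, Matrix.replicateCol_apply,
        if_pos rfl, cx_snP_last]
      push_cast
      rw [one_mul]
      rfl
    · intro z _ hz
      rw [Matrix.transpose_apply, Matrix.fromCols_apply_inr, Matrix.replicateCol_apply,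
        if_neg hz]
      push_cast
      rw [zero_mul]
    · intro h
      exact absurd (Finset.mem_univ _) h

/-- **The numbers of the base family vanish.** -/
theorem numbers [Fintype J] (d : Dat c V V' W W' J N) (hV : ∀ a, (V a).IsElliptic)
    (hV' : ∀ a, (V' a).IsElliptic) (hW' : ∀ i, (W' i).IsElliptic) (m : J → ℤ) (g : J → Pts W)
    (g' : J → Pts W') (hg : ∀ j i, (d.φ i).k0 (g' j i) = g j i)
    {F : Type} [Field F] [Algebra Qb F] (ξ : ∀ a, ((V a)⁄F).toAffine.Point)
    (hξ : IsGen 0 (Algebra.ofId Qb F) V ξ)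
    (ha : ∀ X : Fin (D + 1) → WeierstrassCurve Qb, (∀ i, (X i).IsElliptic) → ∀ f : Mor W X,
          IsOfFinAddOrder (∑ j, m j • (QuotientAddGroup.mk
            (cyc (img f (pnt (Algebra.ofId Qb F) ξ (N j) (g j) (org W)))) : CH X (pt0 Qb) D))) :
    (∀ M, MatC c V' W' M →
      ∑ j, m j * Complex.normSq ((cx c W' M).transpose * cx c W' (d.NP j)).det = 0) ∧
    ∀ M, MatC c V' W' M → ∀ (E : WeierstrassCurve Qb) (s : Fin r → ℤ),
      (∀ i, W' i ≠ E → s i = 0) → ∀ lam : E.toAffine.Point →+ ℂ,
      (∀ P, lam ((c.w E).k0 P) = c.ω E * lam P) →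
      ∑ j, m j * (conj ((cx c W' M).transpose * cx c W' (d.NP j)).det *
        ((Matrix.fromCols (cx c W' M) (Matrix.replicateCol Unit fun i => (s i : ℂ))).transpose *
          Matrix.fromCols (cx c W' (d.NP j))
            (Matrix.replicateCol Unit fun i => lam (trk (W' i) E (g' j i)))).det) = 0 := by
  have hq : (d.q : ℂ) ≠ 0 := by exact_mod_cast d.hq.ne'
  have hX : ∀ E : WeierstrassCurve Qb, E.IsElliptic → ∀ x, (snX V' E x).IsElliptic := by
    intro E hE x
    induction x using Fin.lastCases with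
    | last => rw [snX_last]; exact hE
    | cast a => rw [snX_castSucc]; exact hV' a
  constructor
  · intro M hM
    have hE : (WeierstrassCurve.ofJ (0 : Qb)).IsElliptic := inferInstance
    have h1 := (test d hV hV' m g ξ hξ ha (snX V' (WeierstrassCurve.ofJ (0 : Qb))) (hX _ hE)
      (snP M 0) (snP_mat hM fun i _ => rfl)).1 (snI D) (snI_mat c V' _)
    have h2 : ∀ j, Complex.normSq ((cx c (snX V' (WeierstrassCurve.ofJ (0 : Qb)))
        (snI D)).transpose * cx c (snX V' (WeierstrassCurve.ofJ (0 : Qb)))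
        (tP d (snX V' (WeierstrassCurve.ofJ (0 : Qb))) (snP M 0) j)).det =
        ((d.q : ℝ) ^ D) ^ 2 * Complex.normSq ((cx c W' M).transpose * cx c W' (d.NP j)).det := by
      intro j
      rw [top_block (s := 0) d hM (fun i _ => rfl), Matrix.det_smul, Fintype.card_fin, map_mul, map_pow,
        Complex.normSq_natCast]
      ring
    simp only [h2] at h1
    have h3 : ((d.q : ℝ) ^ D) ^ 2 *
        ∑ j, m j * Complex.normSq ((cx c W' M).transpose * cx c W' (d.NP j)).det = 0 := by
      rw [← h1, Finset.mul_sum]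
      refine Finset.sum_congr rfl fun j _ => ?_
      ring
    exact (mul_eq_zero.1 h3).resolve_left (by have := d.hq; positivity)
  · intro M hM E s hs lam hlam
    by_cases hE : E.IsElliptic
    · have h1 := (test d hV hV' m g ξ hξ ha (snX V' E) (hX _ hE)
        (snP M s) (snP_mat hM hs)).2 (snI D) (snI_mat c V' _) E
        (fun x => if x = Fin.last D then 1 else 0) (fun x hx => by
          rw [if_neg]
          rintro rfl
          exact hx (snX_last V' E)) lam hlam
      have h2 : ∀ j, conj ((cx c (snX V' E) (snI D)).transpose *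
          cx c (snX V' E) (tP d (snX V' E) (snP M s) j)).det *
          ((Matrix.fromCols (cx c (snX V' E) (snI D)) (Matrix.replicateCol Unit fun x =>
            (((if x = Fin.last D then 1 else 0 : ℤ)) : ℂ))).transpose *
          Matrix.fromCols (cx c (snX V' E) (tP d (snX V' E) (snP M s) j))
            (Matrix.replicateCol Unit fun x => lam (trk (snX V' E x) E
              (tg d (snX V' E) (hX E hE) (snP M s) (g j) x)))).det =
          (d.q : ℂ) ^ D * (d.q : ℂ) ^ (D + 1) *
            (conj ((cx c W' M).transpose * cx c W' (d.NP j)).det *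
        ((Matrix.fromCols (cx c W' M) (Matrix.replicateCol Unit fun i => (s i : ℂ))).transpose *
          Matrix.fromCols (cx c W' (d.NP j))
            (Matrix.replicateCol Unit fun i => lam (trk (W' i) E (g' j i)))).det) := by
        intro j
        rw [top_block d hM hs, full_block d hM hs (hX E hE) (g j) (g' j) (hg j) lam hlam,
          Matrix.det_smul, Matrix.det_smul, Fintype.card_fin, Fintype.card_sum,
          Fintype.card_fin, Fintype.card_unit, map_mul, map_pow, Complex.conj_natCast]
        ring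
      simp only [h2] at h1
      have h3 : (d.q : ℂ) ^ D * (d.q : ℂ) ^ (D + 1) *
          ∑ j, m j * (conj ((cx c W' M).transpose * cx c W' (d.NP j)).det *
        ((Matrix.fromCols (cx c W' M) (Matrix.replicateCol Unit fun i => (s i : ℂ))).transpose *
          Matrix.fromCols (cx c W' (d.NP j))
            (Matrix.replicateCol Unit fun i => lam (trk (W' i) E (g' j i)))).det) = 0 := by
        rw [← h1, Finset.mul_sum]
        refine Finset.sum_congr rfl fun j _ => ?_
        ring
      exact (mul_eq_zero.1 h3).resolve_left (mul_ne_zero (pow_ne_zero _ hq) (pow_ne_zero _ hq))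
    · have hne : ∀ i, W' i ≠ E := fun i h => hE (h ▸ hW' i)
      refine Finset.sum_eq_zero fun j _ => ?_
      have h1 : ((Matrix.fromCols (cx c W' M)
          (Matrix.replicateCol Unit fun i => (s i : ℂ))).transpose *
          Matrix.fromCols (cx c W' (d.NP j))
            (Matrix.replicateCol Unit fun i => lam (trk (W' i) E (g' j i)))).det = 0 := by
        refine Matrix.det_eq_zero_of_column_eq_zero (Sum.inr ()) fun x => ?_
        rw [Matrix.mul_apply]
        refine Finset.sum_eq_zero fun i _ => ?_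
        rw [Matrix.fromCols_apply_inr, Matrix.replicateCol_apply, trk_ne (hne i), map_zero,
          mul_zero]
      rw [h1, mul_zero, mul_zero]

end Pool.Agent.LibAF11
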